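import Pool.Agent.LHE.Defs
import Pool.Agent.LHA.CellL

/-!
# The neighbours of the free vertices

`be_adj`: `SimpleGraph.fromRel_adj`; `eR` is irreflexive: two vertices of the arms: `K.B` is irreflexive; two vertices of a path: `p + 1 ≠ p`; two vertices of a cycle: `c' = c + 1` is impossible for `c = c'`, and `c + 1 = l`, `c' = 0 = c` gives `l = 1 < 3` (`A.hl`). `be_arm`, `be_path`, `be_cyc`: from `be_adj` by cases on `t` (all the cases of `eR` by definition); for the arms `K.B` is symmetric. `c0 0 = .inr (0, .inl ⟨0, _⟩)`.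
-/

namespace Pool.Agent.LHE

open Pool.Agent.LIH Pool.Agent.LHA Pool.Agent.LHD
open Pool.Agent.LHC (Rg DeepN De Br CZ Ctr nxt nxG glueS sAdj LN LC LO)

variable {V : Type} {H : SimpleGraph V} {K : Kit H} (A : GA K)

theorem bp_irr (s : A.Y) : ¬ A.eR s s := by
  rcases s with y | ⟨g, p | ⟨i, c⟩⟩
  · exact K.B.loopless.irrefl y
  · rintro ⟨-, h, -⟩
    omega
  · rintro ⟨-, -, h | ⟨h1, h2⟩⟩
    · omega
    · have := A.hl
      omega

theorem be_adj (s t : A.Y) : A.BE.Adj s t ↔ A.eR s t ∨ A.eR t s := by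
  unfold GA.BE
  rw [SimpleGraph.fromRel_adj]
  constructor
  · exact fun h => h.2
  · intro h
    refine ⟨?_, h⟩
    rintro rfl
    rcases h with h | h <;> exact bp_irr A s h

theorem be_arm (y : Fin 3 × Fin K.len) (t : A.Y) : A.BE.Adj (.inl y) t ↔
    (∃ y', t = .inl y' ∧ K.B.Adj y y') ∨ (y = K.fv 2 (K.j - 1) ∧ t = A.c0 0) := by
  rw [be_adj]
  rcases t with y' | ⟨g, p | ⟨i, c⟩⟩
  · constructor
    · rintro (h | h)
      · exact Or.inl ⟨y', rfl, h⟩
      · exact Or.inl ⟨y', rfl, SimpleGraph.Adj.symm h⟩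
    · rintro (⟨y'', h1, h2⟩ | ⟨-, h⟩)
      · have h3 : y' = y'' := Sum.inl.inj h1
        subst h3
        exact Or.inl h2
      · unfold GA.c0 at h
        cases h
  · constructor
    · rintro (⟨h1, h2, h3⟩ | h)
      · subst h1
        refine Or.inr ⟨h2, ?_⟩
        unfold GA.c0
        have h4 : p = ⟨0, Nat.succ_pos _⟩ := Fin.ext h3
        rw [h4]
      · exact h.elim
    · rintro (⟨y'', h1, -⟩ | ⟨h1, h2⟩)
      · cases h1
      · unfold GA.c0 at h2
        have h3 := Sum.inr.inj h2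
        have h4 : g = 0 := congrArg Prod.fst h3
        have h5 : (Sum.inl p : Fin (A.M + 1) ⊕ (Fin (A.d + 1) × Fin A.l)) = Sum.inl ⟨0, Nat.succ_pos _⟩ :=
          congrArg Prod.snd h3
        have h6 := Sum.inl.inj h5
        exact Or.inl ⟨h4, h1, by rw [h6]⟩
  · constructor
    · rintro (h | h)
      · exact h.elim
      · exact h.elim
    · rintro (⟨y'', h1, -⟩ | ⟨h1, h2⟩)
      · cases h1
      · unfold GA.c0 at h2
        have h3 := congrArg Prod.snd (Sum.inr.inj h2)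
        cases h3

theorem be_path (g : Fin 4) (p : Fin (A.M + 1)) (t : A.Y) : A.BE.Adj (.inr (g, .inl p)) t ↔
    (g = 0 ∧ p.1 = 0 ∧ t = .inl (K.fv 2 (K.j - 1))) ∨
    (∃ p' : Fin (A.M + 1), t = .inr (g, .inl p') ∧
      ((p'.1 = p.1 + 1 ∧ p'.1 ≤ A.m g) ∨ (p.1 = p'.1 + 1 ∧ p.1 ≤ A.m g))) ∨
    (∃ (i : Fin (A.d + 1)) (c : Fin A.l), t = .inr (g, .inr (i, c)) ∧ c.1 = 0 ∧
      ((i = 0 ∧ p.1 = 0) ∨ (i ≠ 0 ∧ p.1 = A.m g))) := by
  rw [be_adj]
  rcases t with y' | ⟨g', p' | ⟨i, c⟩⟩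
  · constructor
    · rintro (h | ⟨h1, h2, h3⟩)
      · exact h.elim
      · exact Or.inl ⟨h1, h3, by rw [h2]⟩
    · rintro (⟨h1, h2, h3⟩ | ⟨p', h1, -⟩ | ⟨i, c, h1, -⟩)
      · exact Or.inr ⟨h1, Sum.inl.inj h3, h2⟩
      · cases h1
      · cases h1
  · constructor
    · rintro (⟨h1, h2, h3⟩ | ⟨h1, h2, h3⟩)
      · subst h1
        exact Or.inr (Or.inl ⟨p', rfl, Or.inl ⟨h2, h3⟩⟩)
      · subst h1
        exact Or.inr (Or.inl ⟨p', rfl, Or.inr ⟨h2, h3⟩⟩)
    · rintro (⟨h1, h2, h3⟩ | ⟨q, h1, h2⟩ | ⟨i, c, h1, -⟩)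
      · cases h3
      · have h3 := Sum.inr.inj h1
        have h4 : g' = g := congrArg Prod.fst h3
        have h5 : (Sum.inl p' : Fin (A.M + 1) ⊕ (Fin (A.d + 1) × Fin A.l)) = Sum.inl q := congrArg Prod.snd h3
        have h6 : p' = q := Sum.inl.inj h5
        subst h4 h6
        rcases h2 with ⟨h7, h8⟩ | ⟨h7, h8⟩
        · exact Or.inl ⟨rfl, h7, h8⟩
        · exact Or.inr ⟨rfl, h7, h8⟩
      · have h3 := congrArg Prod.snd (Sum.inr.inj h1)
        cases h3
  · constructor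
    · rintro (⟨h1, h2, h3⟩ | h)
      · subst h1
        exact Or.inr (Or.inr ⟨i, c, rfl, h2, h3⟩)
      · exact h.elim
    · rintro (⟨h1, h2, h3⟩ | ⟨q, h1, h2⟩ | ⟨i', c', h1, h2, h3⟩)
      · cases h3
      · have h3 := congrArg Prod.snd (Sum.inr.inj h1)
        cases h3
      · have h4 := Sum.inr.inj h1
        have h5 : g' = g := congrArg Prod.fst h4
        have h6 : (Sum.inr (i, c) : Fin (A.M + 1) ⊕ (Fin (A.d + 1) × Fin A.l)) = Sum.inr (i', c') :=
          congrArg Prod.snd h4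
        have h7 := Sum.inr.inj h6
        have h8 : i = i' := congrArg Prod.fst h7
        have h9 : c = c' := congrArg Prod.snd h7
        subst h5 h8 h9
        exact Or.inl ⟨rfl, h2, h3⟩

theorem be_cyc (g : Fin 4) (i : Fin (A.d + 1)) (c : Fin A.l) (t : A.Y) :
    A.BE.Adj (.inr (g, .inr (i, c))) t ↔
    (∃ p : Fin (A.M + 1), t = .inr (g, .inl p) ∧ c.1 = 0 ∧
      ((i = 0 ∧ p.1 = 0) ∨ (i ≠ 0 ∧ p.1 = A.m g))) ∨
    (∃ c' : Fin A.l, t = .inr (g, .inr (i, c')) ∧ (c'.1 = c.1 + 1 ∨ (c.1 + 1 = A.l ∧ c'.1 = 0) ∨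
      c.1 = c'.1 + 1 ∨ (c'.1 + 1 = A.l ∧ c.1 = 0))) := by
  rw [be_adj]
  rcases t with y' | ⟨g', p' | ⟨i', c'⟩⟩
  · constructor
    · rintro (h | h)
      · exact h.elim
      · exact h.elim
    · rintro (⟨p, h1, -⟩ | ⟨c', h1, -⟩)
      · cases h1
      · cases h1
  · constructor
    · rintro (h | ⟨h1, h2, h3⟩)
      · exact h.elim
      · subst h1
        exact Or.inl ⟨p', rfl, h2, h3⟩
    · rintro (⟨p, h1, h2, h3⟩ | ⟨c', h1, -⟩)
      · have h4 := Sum.inr.inj h1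
        have h5 : g' = g := congrArg Prod.fst h4
        have h6 : (Sum.inl p' : Fin (A.M + 1) ⊕ (Fin (A.d + 1) × Fin A.l)) = Sum.inl p := congrArg Prod.snd h4
        have h7 : p' = p := Sum.inl.inj h6
        subst h5 h7
        exact Or.inr ⟨rfl, h2, h3⟩
      · have h3 := congrArg Prod.snd (Sum.inr.inj h1)
        cases h3
  · constructor
    · rintro (⟨h1, h2, h3⟩ | ⟨h1, h2, h3⟩)
      · subst h1 h2
        refine Or.inr ⟨c', rfl, ?_⟩
        rcases h3 with h3 | h3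
        · exact Or.inl h3
        · exact Or.inr (Or.inl h3)
      · subst h1 h2
        refine Or.inr ⟨c', rfl, ?_⟩
        rcases h3 with h3 | h3
        · exact Or.inr (Or.inr (Or.inl h3))
        · exact Or.inr (Or.inr (Or.inr h3))
    · rintro (⟨p, h1, -⟩ | ⟨q, h1, h2⟩)
      · have h3 := congrArg Prod.snd (Sum.inr.inj h1)
        cases h3
      · have h4 := Sum.inr.inj h1
        have h5 : g' = g := congrArg Prod.fst h4
        have h6 : (Sum.inr (i', c') : Fin (A.M + 1) ⊕ (Fin (A.d + 1) × Fin A.l)) = Sum.inr (i, q) :=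
          congrArg Prod.snd h4
        have h7 := Sum.inr.inj h6
        have h8 : i' = i := congrArg Prod.fst h7
        have h9 : c' = q := congrArg Prod.snd h7
        subst h5 h8 h9
        rcases h2 with h2 | h2 | h2 | h2
        · exact Or.inl ⟨rfl, rfl, Or.inl h2⟩
        · exact Or.inl ⟨rfl, rfl, Or.inr h2⟩
        · exact Or.inr ⟨rfl, rfl, Or.inl h2⟩
        · exact Or.inr ⟨rfl, rfl, Or.inr h2⟩

end Pool.Agent.LHE
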