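import Pool.Agent.LHE.Defs

/-!
# The values of a locally injective homomorphism are in the 2-core

`deg_induce`: `Subtype.val` is a bijection from `(H.induce C).neighborSet v` onto `H.neighborSet v.1 ∩ C` (`Set.ncard_image_of_injective`; `(H.induce C).Adj a b` is `H.Adj a.1 b.1`, `SimpleGraph.comap_adj`). `core_img`: let `S` be the set of all `f u` such that `u` has a neighbour. If `x = f u ∈ S`, `G.Adj u v`, then by `hG` there is `w ≠ v` with `G.Adj u w`; `f v ≠ f w` (local injectivity at `u`), both are neighbours of `x` and in `S` (they are adjacent to `u`); so `2 ≤ (N(x) ∩ S).ncard` (`{f v, f w} ⊆ N(x) ∩ S`, everything is finite). So `MD2 H S`.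
`core_top`: `f` is injective on `N(w')` and maps it into `N(f w') ∩ Core H` (`core_img`, the neighbours of `w'` have the neighbour `w'`): `(G.neighborSet w').ncard ≤ (H.neighborSet (f w') ∩ Core H).ncard` (`Set.ncard_le_ncard_of_injOn`). `(G.neighborSet w').ncard ≥ 4` (`hT.four`), so `w'` has a neighbour and `f w' ∈ Core H`. If `f w' ∉ C` then `hT.max` gives a contradiction. `core_comp`: `f w' ∈ C` by `core_top`; go along a walk from `w'` to `w` (induction on the walk): if `f u ∈ C` and `G.Adj u v` then `f v ∈ Core H` (`core_img`) and `H.Adj (f u) (f v)`, so `f v ∈ C` by `hT.cl`.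
-/

namespace Pool.Agent.LHE

open Pool.Agent.LIH Pool.Agent.LHA Pool.Agent.LHD
open Pool.Agent.LHC (Rg DeepN De Br CZ Ctr nxt nxG glueS sAdj LN LC LO)

variable {V W : Type} {H : SimpleGraph V} {C : Set V} {x : V} {G : SimpleGraph W} {f : W → V}

theorem deg_induce (v : C) :
    ((H.induce C).neighborSet v).ncard = (H.neighborSet v.1 ∩ C).ncard := by
  have h : Subtype.val '' ((H.induce C).neighborSet v) = H.neighborSet v.1 ∩ C := by
    ext a
    constructor
    · rintro ⟨b, hb, rfl⟩
      exact ⟨hb, b.2⟩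
    · rintro ⟨ha, hC⟩
      exact ⟨⟨a, hC⟩, ha, rfl⟩
  rw [← h, Set.ncard_image_of_injective _ Subtype.val_injective]

theorem core_img [Finite V] (hG : Lfl G) (hf : LocInj G H f) {u v : W} (h : G.Adj u v) :
    f u ∈ Core H := by
  refine ⟨{y | ∃ u' v', G.Adj u' v' ∧ f u' = y}, ?_, u, v, h, rfl⟩
  rintro y ⟨u', v', h', rfl⟩
  obtain ⟨w, hw, hw'⟩ := hG u' v' h'
  have hne : f v' ≠ f w := by
    intro he
    exact hw (hf.2 u' h' hw' he).symm
  have hsub : ({f v', f w} : Set V) ⊆ H.neighborSet (f u') ∩ {y | ∃ u' v', G.Adj u' v' ∧ f u' = y} := by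
    rintro z (rfl | rfl)
    · exact ⟨hf.1 _ _ h', v', u', h'.symm, rfl⟩
    · exact ⟨hf.1 _ _ hw', w, u', hw'.symm, rfl⟩
  have h2 := Set.ncard_le_ncard hsub (Set.toFinite _)
  rw [Set.ncard_pair hne] at h2
  exact h2

theorem core_top [Finite V] (hT : Top H C x) (hG : Lfl G) (hf : LocInj G H f) {w' : W}
    (hd : (H.neighborSet x ∩ C).ncard ≤ (G.neighborSet w').ncard) : f w' ∈ C := by
  have h4 := hT.four
  have h1 : (G.neighborSet w').ncard ≤ (H.neighborSet (f w') ∩ Core H).ncard := by
    refine Set.ncard_le_ncard_of_injOn f ?_ (hf.2 w') (Set.toFinite _)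
    intro a ha
    exact ⟨hf.1 _ _ ha, core_img hG hf (SimpleGraph.Adj.symm ha)⟩
  have h2 : (G.neighborSet w').ncard ≠ 0 := by omega
  obtain ⟨v, hv⟩ := Set.nonempty_of_ncard_ne_zero h2
  have h3 : f w' ∈ Core H := core_img hG hf hv
  by_contra hC
  have h5 := hT.max _ h3 hC
  omega

theorem core_comp [Finite V] (hT : Top H C x) (hG : Lfl G) (hf : LocInj G H f) {w w' : W}
    (hr : G.Reachable w w')
    (hd : (H.neighborSet x ∩ C).ncard ≤ (G.neighborSet w').ncard) : f w ∈ C := by
  have h0 := core_top hT hG hf hd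
  obtain ⟨p⟩ := hr
  clear hd
  induction p with
  | nil => exact h0
  | cons h p ih => exact hT.cl _ _ (ih h0) (core_img hG hf h) (hf.1 _ _ h.symm)

end Pool.Agent.LHE
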