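import Pool.Agent.LHE.Defs
import Pool.Agent.LHE.CoA

/-!
# Homomorphisms to the component

`loc_val`: `(H.induce C).Adj a b` is `H.Adj a.1 b.1`; injectivity: `Subtype.ext`. `to_comp`: `w` is good if there is `u ∉ A` with `G.Reachable w u` and a neighbour of `u`. If `w` is good then by `hr` there is `w'` with `G.Reachable w w'` and `Δ ≤ deg w'`, so `f w ∈ C` by `core_comp`. `f' w = ⟨f w, _⟩` if `w` is good and `f' w = p w` otherwise. Adjacent vertices are both good or both not good. If `G.Adj u v` and `u` is not good then `u ∈ A` (otherwise `u` is good: `u` itself, with the neighbour `v`) and `v ∈ A` in the same way. So `hp`, `hi` give the homomorphism property and the local injectivity at the vertices which are not good.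
-/

namespace Pool.Agent.LHE

open Pool.Agent.LIH Pool.Agent.LHA Pool.Agent.LHD
open Pool.Agent.LHC (Rg DeepN De Br CZ Ctr nxt nxG glueS sAdj LN LC LO)

variable {V W : Type} {H : SimpleGraph V} {C : Set V} {x : V} {G : SimpleGraph W}

theorem loc_val {f : W → C} (hf : LocInj G (H.induce C) f) : LocInj G H (fun w => (f w).1) := by
  refine ⟨fun u v h => hf.1 u v h, fun v a ha b hb he => hf.2 v ha hb (Subtype.ext he)⟩

theorem to_comp [Finite V] (hT : Top H C x) (hG : Lfl G) (A : Set W) (p : W → C)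
    (hp : ∀ u v, u ∈ A → v ∈ A → G.Adj u v → H.Adj (p u).1 (p v).1)
    (hi : ∀ u v w, u ∈ A → v ∈ A → w ∈ A → G.Adj u v → G.Adj u w → p v = p w → v = w)
    (hr : ∀ u, u ∉ A → (∃ v, G.Adj u v) → ∃ w, G.Reachable u w ∧
      (H.neighborSet x ∩ C).ncard ≤ (G.neighborSet w).ncard)
    {f : W → V} (hf : LocInj G H f) : ∃ f' : W → C, LocInj G (H.induce C) f' := by
  classical
  have hgd : ∀ w, (∃ u, u ∉ A ∧ G.Reachable w u ∧ ∃ v, G.Adj u v) → f w ∈ C := by
    rintro w ⟨u, hu, hr1, hv⟩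
    obtain ⟨w', hr2, hd⟩ := hr u hu hv
    exact core_comp hT hG hf (hr1.trans hr2) hd
  have hadj : ∀ u v, G.Adj u v → (∃ a, a ∉ A ∧ G.Reachable u a ∧ ∃ b, G.Adj a b) →
      ∃ a, a ∉ A ∧ G.Reachable v a ∧ ∃ b, G.Adj a b := by
    rintro u v h ⟨a, ha, hr1, hb⟩
    exact ⟨a, ha, h.symm.reachable.trans hr1, hb⟩
  have hbad : ∀ u v, G.Adj u v → ¬ (∃ a, a ∉ A ∧ G.Reachable u a ∧ ∃ b, G.Adj a b) → u ∈ A := by
    intro u v h hn
    by_contra hA
    exact hn ⟨u, hA, SimpleGraph.Reachable.refl u, v, h⟩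
  obtain ⟨g, hg1, hg2⟩ : ∃ g : W → C,
      (∀ w, (∃ a, a ∉ A ∧ G.Reachable w a ∧ ∃ b, G.Adj a b) → (g w).1 = f w) ∧
      (∀ w, ¬ (∃ a, a ∉ A ∧ G.Reachable w a ∧ ∃ b, G.Adj a b) → g w = p w) := by
    refine ⟨fun w => if h : (∃ a, a ∉ A ∧ G.Reachable w a ∧ ∃ b, G.Adj a b) then ⟨f w, hgd w h⟩ else p w,
      fun w h => ?_, fun w h => ?_⟩
    · beta_reduce
      rw [dif_pos h]
    · beta_reduce
      rw [dif_neg h]
  refine ⟨g, ?_, ?_⟩
  · intro u v h
    show H.Adj (g u).1 (g v).1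
    by_cases hu : ∃ a, a ∉ A ∧ G.Reachable u a ∧ ∃ b, G.Adj a b
    · rw [hg1 u hu, hg1 v (hadj u v h hu)]
      exact hf.1 u v h
    · have hv : ¬ ∃ a, a ∉ A ∧ G.Reachable v a ∧ ∃ b, G.Adj a b := fun hv => hu (hadj v u h.symm hv)
      rw [hg2 u hu, hg2 v hv]
      exact hp u v (hbad u v h hu) (hbad v u h.symm hv) h
  · intro u v hv w hw he
    have hv' : G.Adj u v := hv
    have hw' : G.Adj u w := hw
    by_cases hu : ∃ a, a ∉ A ∧ G.Reachable u a ∧ ∃ b, G.Adj a b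
    · have h1 := hg1 v (hadj u v hv' hu)
      have h2 := hg1 w (hadj u w hw' hu)
      apply hf.2 u hv hw
      rw [← h1, ← h2, he]
    · have hnv : ¬ ∃ a, a ∉ A ∧ G.Reachable v a ∧ ∃ b, G.Adj a b := fun h => hu (hadj v u hv'.symm h)
      have hnw : ¬ ∃ a, a ∉ A ∧ G.Reachable w a ∧ ∃ b, G.Adj a b := fun h => hu (hadj w u hw'.symm h)
      rw [hg2 v hnv, hg2 w hnw] at he
      exact hi u v w (hbad u v hv' hu) (hbad v u hv'.symm hnv) (hbad w u hw'.symm hnw) hv' hw' he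

end Pool.Agent.LHE
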