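import Pool.Agent.LHE.Defs
import Pool.Agent.LHA.Nb1
import Pool.Agent.LHA.Nb2

/-!
# Closed walks

`nb_all` (`LHA/Nb2.lean`) gives `M`. Let `l = 2 * (M + 2)` (even, `l - 1 ≥ M` is odd). Let `H.Adj z y`. There are `y1 ≠ y2` in `N(y)`, different from `z` (`3 ≤ |N(y)|`). `Rch H (l - 1) y y1 y2 y` by `nb_all` since `PWalk H (l - 1) y1 y` (the walk of length `1`; `l - 1` is odd). By `rch_seq` there is `g` with `g 0 = y`, `g 1 = y1`, `g (l - 1) = y2`, `g l = y` (`l - 1 + 1 = l`), adjacent steps for `p ≤ l - 1` and `g p ≠ g (p + 2)` for `p < l - 1`. Let `t i = g (i % l)`.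
`per`: `Nat.add_mod_right`. `adj i`: with `r = i % l`: if `r + 1 < l` then `(i + 1) % l = r + 1`; if `r = l - 1` then `(i + 1) % l = 0` and `g (l - 1) ∼ g l = g 0`. `nb i`: `r + 2 < l`: `g r ≠ g (r + 2)`; `r = l - 2`: `(i + 2) % l = 0`, `g (l - 2) ≠ g l = g 0`; `r = l - 1`: `(i + 2) % l = 1`: `g (l - 1) = y2 ≠ y1 = g 1`. `a1`: `t 1 = y1 ≠ z`. `a2`: `t (l - 1) = y2 ≠ z`.
-/

namespace Pool.Agent.LHE

open Pool.Agent.LIH Pool.Agent.LHA Pool.Agent.LHD
open Pool.Agent.LHC (Rg DeepN De Br CZ Ctr nxt nxG glueS sAdj LN LC LO)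

theorem cwalk {V : Type} [Finite V] {H : SimpleGraph V}
    (h3 : ∀ v, 3 ≤ (H.neighborSet v).ncard) :
    ∃ l, 3 ≤ l ∧ ∀ z y, H.Adj z y → ∃ t, CW H l z y t := by
  obtain ⟨M, hM⟩ := nb_all h3
  refine ⟨2 * (M + 2), by omega, fun z y hzy => ?_⟩
  set l : ℕ := 2 * (M + 2) with hl
  have h1 : 1 < (H.neighborSet y \ {z}).ncard := by
    have h2 := Set.ncard_sdiff_singleton_add_one (show z ∈ H.neighborSet y from hzy.symm)
      (Set.toFinite _)
    have := h3 y
    omega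
  obtain ⟨y1, hy1⟩ : (H.neighborSet y \ {z}).Nonempty := by
    rw [← Set.ncard_pos (Set.toFinite _)]
    omega
  obtain ⟨y2, hy2, hne⟩ := Set.exists_ne_of_one_lt_ncard h1 y1
  have a1 : H.Adj y y1 := hy1.1
  have a2 : H.Adj y y2 := hy2.1
  have hr : Rch H (l - 1) y y1 y2 y := by
    refine (hM (l - 1) (by omega) y y1 y2 y a1 a2.symm).2 ⟨a1.symm.toWalk, ?_⟩
    rw [SimpleGraph.Walk.length_cons, SimpleGraph.Walk.length_nil]
    omega
  obtain ⟨g, g0, g1, gm, gl, gadj, gnb⟩ := (rch_seq a1).1 hr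
  have hl1 : l - 1 + 1 = l := by omega
  rw [hl1] at gl
  have hl0 : 0 < l := by omega
  refine ⟨fun i => g (i % l), ?_, ?_, ?_, ?_, ?_, ?_⟩
  · rw [Nat.zero_mod, g0]
  · intro i
    rw [Nat.add_mod_right]
  · intro i
    have hr := Nat.mod_lt i hl0
    rw [← Nat.mod_add_mod i l 1]
    rcases Nat.lt_or_ge (i % l + 1) l with h | h
    · rw [Nat.mod_eq_of_lt h]
      exact gadj _ (by omega)
    · have e : i % l + 1 = l := by omega
      rw [e, Nat.mod_self]
      have h4 := gadj (i % l) (by omega)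
      rw [e, gl] at h4
      rw [g0]
      exact h4
  · intro i
    have hr := Nat.mod_lt i hl0
    rw [← Nat.mod_add_mod i l 2]
    rcases Nat.lt_trichotomy (i % l + 2) l with h | h | h
    · rw [Nat.mod_eq_of_lt h]
      exact gnb _ (by omega)
    · have h4 := gnb (i % l) (by omega)
      rw [h, gl] at h4
      rw [h, Nat.mod_self, g0]
      exact h4
    · have e : i % l + 2 = l + 1 := by omega
      have e2 : i % l = l - 1 := by omega
      have e3 : (l + 1) % l = 1 := by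
        rw [Nat.add_mod_left]
        exact Nat.mod_eq_of_lt (by omega)
      rw [e, e3, e2, gm, g1]
      exact hne
  · rw [Nat.mod_eq_of_lt (by omega), g1]
    exact fun h => hy1.2 h
  · rw [Nat.mod_eq_of_lt (by omega), gm]
    exact fun h => hy2.2 h

end Pool.Agent.LHE
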