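import Mathlib
import Pool.Agent.LHD.Defs

/-!
# `H`-LIHOM for graphs whose 2-core has a component of minimum degree 3: definitions
-/

namespace Pool.Agent.LHE

open Pool.Agent.LIH Pool.Agent.LHA Pool.Agent.LHD
open Pool.Agent.LHC (Rg DeepN De Br CZ Ctr nxt nxG glueS sAdj LN LC LO)

/-! ## The 2-core -/

/-- no vertex has exactly one neighbour -/
def Lfl {W : Type} (G : SimpleGraph W) : Prop := ∀ u v, G.Adj u v → ∃ w, w ≠ v ∧ G.Adj u w

/-- every vertex of `S` has at least two neighbours in `S` -/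
def MD2 {V : Type} (H : SimpleGraph V) (S : Set V) : Prop :=
  ∀ v ∈ S, 2 ≤ (H.neighborSet v ∩ S).ncard

/-- the 2-core: the largest set of vertices in which every vertex has at least two neighbours -/
def Core {V : Type} (H : SimpleGraph V) : Set V := {v | ∃ S, MD2 H S ∧ v ∈ S}

/-- `C` is a component of the 2-core with all degrees at least 3; the degree of `x` in it is at least 4 and larger
than the degrees of all vertices of the 2-core outside `C` -/
structure Top {V : Type} (H : SimpleGraph V) (C : Set V) (x : V) : Prop where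
  con : (H.induce C).Connected
  cl : ∀ u v, u ∈ C → v ∈ Core H → H.Adj u v → v ∈ C
  deg : ∀ v ∈ C, 3 ≤ (H.neighborSet v ∩ C).ncard
  mem : x ∈ C
  four : 4 ≤ (H.neighborSet x ∩ C).ncard
  max : ∀ v ∈ Core H, v ∉ C →
    (H.neighborSet v ∩ Core H).ncard < (H.neighborSet x ∩ C).ncard

/-! ## The gadgets -/

/-- A closed non-backtracking walk of length `l` through `y` which does not use the edge to `z` at the beginning and at
the end, as a periodic sequence. -/
structure CW {V : Type} (H : SimpleGraph V) (l : ℕ) (z y : V) (t : ℕ → V) : Prop where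
  t0 : t 0 = y
  per : ∀ i, t (i + l) = t i
  adj : ∀ i, H.Adj (t i) (t (i + 1))
  nb : ∀ i, t i ≠ t (i + 2)
  a1 : t 1 ≠ z
  a2 : t (l - 1) ≠ z

/-- The values of a gadget: the path `P 1, ..., P (m + 1)`, attached to a vertex with the value `P 0 = z`, and the
cycles `T i`. The vertex `0` of the cycle `0` is adjacent to `P 1 = y`, the vertices `0` of the other cycles are
adjacent to `P (m + 1) = x0`. -/
structure GG {V : Type} (H : SimpleGraph V) (x0 : V) (m l d : ℕ) (z y : V) (P : ℕ → V)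
    (T : Fin (d + 1) → ℕ → V) : Prop where
  p0 : P 0 = z
  p1 : P 1 = y
  pm : P (m + 1) = x0
  adjP : ∀ p ≤ m, H.Adj (P p) (P (p + 1))
  nbP : ∀ p < m, P p ≠ P (p + 2)
  adj0 : H.Adj y (T 0 0)
  t0z : T 0 0 ≠ z
  t0p : T 0 0 ≠ P 2
  adjS : ∀ i : Fin d, H.Adj x0 (T i.succ 0)
  tsp : ∀ i : Fin d, T i.succ 0 ≠ P m
  inj : ∀ i i' : Fin d, T i.succ 0 = T i'.succ 0 → i = i'
  cw0 : CW H l y (T 0 0) (T 0)
  cws : ∀ i : Fin d, CW H l x0 (T i.succ 0) (T i.succ)

/-- the data of the gadgets -/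
structure GA {V : Type} {H : SimpleGraph V} (K : Kit H) where
  x0 : V
  d : ℕ
  l : ℕ
  M : ℕ
  m : Fin 4 → ℕ
  f : Fin 4 → V
  hd : (H.neighborSet x0).ncard = d + 1
  hl : 3 ≤ l
  m1 : ∀ g, 1 ≤ m g
  mM : ∀ g, m g ≤ M
  fF : ∀ g, f g ∈ K.F g
  ex : ∀ g, g ≠ 0 → ∃ P T, GG H x0 (m g) l d (K.a g) (f g) P T
  ex0 : ∀ x y, H.Adj x y → (∃ w : H.Walk K.v x, w.length = K.j) →
    ∃ P T, GG H x0 (m 0) l d x y P T

section gadget

variable {V : Type} {H : SimpleGraph V} {K : Kit H} (A : GA K)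

/-- The free vertices: the old ones, and the gadgets `g = 0, 1, 2, 3`: a path and cycles. -/
abbrev GA.Y : Type := (Fin 3 × Fin K.len) ⊕ (Fin 4 × (Fin (A.M + 1) ⊕ (Fin (A.d + 1) × Fin A.l)))

/-- The edges between free vertices. The gadget `0` is attached to the last vertex of the arm `2`. -/
def GA.eR : A.Y → A.Y → Prop
  | .inl y, .inl y' => K.B.Adj y y'
  | .inl y, .inr (g, .inl p) => g = 0 ∧ y = K.fv 2 (K.j - 1) ∧ p.1 = 0
  | .inr (g, .inl p), .inr (g', .inl p') => g = g' ∧ p'.1 = p.1 + 1 ∧ p'.1 ≤ A.m g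
  | .inr (g, .inl p), .inr (g', .inr (i, c)) => g = g' ∧ c.1 = 0 ∧
      ((i = 0 ∧ p.1 = 0) ∨ (i ≠ 0 ∧ p.1 = A.m g))
  | .inr (g, .inr (i, c)), .inr (g', .inr (i', c')) => g = g' ∧ i = i' ∧
      (c'.1 = c.1 + 1 ∨ (c.1 + 1 = A.l ∧ c'.1 = 0))
  | _, _ => False

/-- the graph of the free vertices -/
def GA.BE : SimpleGraph A.Y := SimpleGraph.fromRel A.eR

/-- The attachments: the old ones; the gadget `g ≠ 0` is attached to the root `g` of its cell if no arm is attached to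
this root. -/
def GA.atE (KN : ℕ) (lk : Fin 3 → ℕ → ℕ → Prop) (k : ℕ) (y : A.Y) (l : ℕ) (i : Fin 4) : Prop :=
  match y with
  | .inl y => atZ K lk k y l i
  | .inr (g, .inl p) => p.1 = 0 ∧ g ≠ 0 ∧ i = g ∧ k = l ∧
      ¬ ∃ q : Fin 3, q.succ = g ∧ ∃ k' < KN, lk q k' l
  | .inr (_, .inr _) => False

/-- the attachments of a network -/
def GA.atEN (N : Ntw) (k : Fin N.K) (y : A.Y) (l : Fin N.K) (i : Fin 4) : Prop :=
  A.atE N.K N.lk k.1 y l.1 i

/-- the first vertex of the path of the gadget `g` -/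
def GA.c0 (g : Fin 4) : A.Y := .inr (g, .inl ⟨0, Nat.succ_pos _⟩)

/-- the last vertex of the path of the gadget `g` -/
def GA.q (g : Fin 4) : A.Y := .inr (g, .inl ⟨A.m g, Nat.lt_succ_of_le (A.mM g)⟩)

/-- a colouring extended to the gadgets -/
def GA.col {κ : Type} (c : κ → (Fin 3 × Fin K.len) → V) (P : κ → Fin 4 → ℕ → V)
    (T : κ → Fin 4 → Fin (A.d + 1) → ℕ → V) (k : κ) : A.Y → V
  | .inl y => c k y
  | .inr (g, .inl p) => P k g (p.1 + 1)
  | .inr (g, .inr (i, c)) => T k g i c.1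

/-- The values of the gadgets: the gadget `g` of the cell `k` is attached to a vertex with the value `zz k g`, its first
vertex has the value `yy k g`. -/
structure CPx (N : Ntw) (c : Fin N.K → (Fin 3 × Fin K.len) → V) (zz yy : Fin N.K → Fin 4 → V)
    (P : Fin N.K → Fin 4 → ℕ → V) (T : Fin N.K → Fin 4 → Fin (A.d + 1) → ℕ → V) : Prop where
  gg : ∀ k g, GG H A.x0 (A.m g) A.l A.d (zz k g) (yy k g) (P k g) (T k g)
  z0 : ∀ k, zz k 0 = c k (K.fv 2 (K.j - 1))
  zg : ∀ k g, g ≠ 0 → zz k g = K.a g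
  yF : ∀ k g, g ≠ 0 → yy k g ∈ K.F g
  y0 : ∀ k y, K.B.Adj (K.fv 2 (K.j - 1)) y → yy k 0 ≠ c k y
  y1 : ∀ k l i, atN K N k (K.fv 2 (K.j - 1)) l i → yy k 0 ≠ K.a i

end gadget

/-- the graph of a network -/
noncomputable def GE {V : Type} {H : SimpleGraph V} (D : DX H) {K : Kit H} (A : GA K) (N : Ntw) [Finite D.U] :
    SimpleGraph (Fin N.K × (CZ (ZX D) V D.r ⊕ A.Y)) :=
  glueS (gD D (nxG N.K D.U)) (roD D) A.BE (A.atEN N)

end Pool.Agent.LHE
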