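import Pool.Agent.LHE.Defs
import Pool.Agent.LHD.DfX
import Pool.Agent.LHA.DefAdj

/-!
# The adjacency relation is definable

Compare `def_adjX` in `LHD/DfX.lean`: by cases on `s, t`; only `atE` instead of `atZ` is new. `def_atE`: by cases on `z`: `inl y`: `DefAdj_at`. `inr (g, inl p)`: `p = 0`, `g ≠ 0`, `i = g` are constants (`DefF.prop`), `k = l` is `DefF.eq`, and the negation (`DefF.neg`) of `∃ q : Fin 3, q.succ = g ∧ ∃ k' < KK .., lk3 .. q k' l`: `DefF.exF`, `DefF.prop`, `DefF.ex` with the bound `DefAdj_KK` and `def_lk` with `A = ` the new variable `w (Fin.last k)` (`DefT.last`), `B` composed with `Fin.init` (`DefT.init`); see the use of `DefF.ex` in `def_adjM` (`LHA/DefAdj.lean`). `inr (g, inr _)`: `DefF.prop`.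
-/

namespace Pool.Agent.LHE

open Pool.Agent.LIH Pool.Agent.LHA Pool.Agent.LHD
open Pool.Agent.LHC (Rg DeepN De Br CZ Ctr nxt nxG glueS sAdj LN LC LO)

theorem def_atE {V : Type} {H : SimpleGraph V} {K : Kit H} (D : GA K) (μ : Fin 3)
    (Nv J : Polynomial ℕ) {m : ℕ} (hm : 0 < m) {lit : List Bool → ℕ → ℕ → ℕ} (hlit : Unif lit)
    (z : D.Y) (i : Fin 4) {k : ℕ} {A B : CT k} (hA : DefT k A) (hB : DefT k B) :
    DefF k (fun y n0 w => D.atE (KK (Nv.eval n0) (J.eval n0 * m)) (lk3 (Nv.eval n0) (J.eval n0 * m)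
      (lit3 μ (Nv.eval n0) (J.eval n0 * m) m (lit y n0))) (A y n0 w) z (B y n0 w) i) := by
  rcases z with y | ⟨g, p | p⟩
  · exact DefAdj_at K μ Nv J hm hlit y i hA hB
  · show DefF k (fun y n0 w => p.1 = 0 ∧ g ≠ 0 ∧ i = g ∧ A y n0 w = B y n0 w ∧
      ¬ ∃ q : Fin 3, q.succ = g ∧ ∃ k' < KK (Nv.eval n0) (J.eval n0 * m),
        lk3 (Nv.eval n0) (J.eval n0 * m)
          (lit3 μ (Nv.eval n0) (J.eval n0 * m) m (lit y n0)) q k' (B y n0 w))
    refine (DefF.prop _).and ((DefF.prop _).and ((DefF.prop _).and ((DefF.eq hA hB).and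
      (DefF.neg ?_))))
    refine DefF.exF (fun q => (DefF.prop _).and ?_)
    refine DefF.ex (P := fun y n0 w k' => lk3 (Nv.eval n0) (J.eval n0 * m)
      (lit3 μ (Nv.eval n0) (J.eval n0 * m) m (lit y n0)) q k' (B y n0 w))
      (DefAdj_KK Nv J m) ?_
    exact def_lk μ Nv J hm hlit q DefT.last hB.init
  · exact DefF.prop False

theorem def_adjE {V : Type} {H : SimpleGraph V} {K : Kit H} (D : GA K) {Z : Type}
    (P Q : Z → Z → Prop) (ro : Fin 4 → Z) (μ : Fin 3) (Nv J : Polynomial ℕ) {m : ℕ} (hm : 0 < m)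
    {lit : List Bool → ℕ → ℕ → ℕ} (hlit : Unif lit) (s t : Z ⊕ D.Y) {k : ℕ}
    {A B : CT k} (hA : DefT k A) (hB : DefT k B) :
    DefF k (fun y n0 w => adjX P Q ro D.BE (D.atE (KK (Nv.eval n0) (J.eval n0 * m))
      (lk3 (Nv.eval n0) (J.eval n0 * m)
        (lit3 μ (Nv.eval n0) (J.eval n0 * m) m (lit y n0)))) (KK (Nv.eval n0) (J.eval n0 * m))
      (A y n0 w) (B y n0 w) s t) := by
  rcases s with x | x <;> rcases t with z | z
  · exact ((DefF.eq hA hB).and (DefF.prop _)).or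
      (((DfX_nxt hA hB).and (DefF.prop _)).or ((DfX_nxt hB hA).and (DefF.prop _)))
  · exact DefF.exF (fun i => (DefF.prop _).and (def_atE D μ Nv J hm hlit z i hB hA))
  · exact DefF.exF (fun i => (DefF.prop _).and (def_atE D μ Nv J hm hlit x i hA hB))
  · exact (DefF.eq hA hB).and (DefF.prop _)

end Pool.Agent.LHE
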