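import Pool.Agent.LHE.Defs
import Pool.Agent.LHA.Nb1
import Pool.Agent.LHA.Nb2

/-!
# The values of one gadget

`x0` has a neighbour `b`. `Rch H m z y b x0` by `hM`, and `rch_seq` gives `P = g` with `g 0 = z`, `g 1 = y`, `g m = b`, `g (m + 1) = x0`, adjacent steps for `p ≤ m`, `g p ≠ g (p + 2)` for `p < m`. Choose `t0 ∈ N(y)`, `t0 ≠ z`, `t0 ≠ g 2` (`3 ≤ |N(y)|`), and `T 0` by `hl y t0`. The set `N(x0) \ {g m}` has `d` elements (`g m ∈ N(x0)`: `Set.ncard_diff_singleton_add_one`), so there is an injective `e : Fin d → V` with values in this set (`Finite.equivFin`, `Nat.card` of the set is `d`). `T i.succ` by `hl x0 (e i)`. `CW.t0` gives `T 0 0 = t0`, `T i.succ 0 = e i`. Define `T` by `Fin.cases`.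
-/

namespace Pool.Agent.LHE

open Pool.Agent.LIH Pool.Agent.LHA Pool.Agent.LHD
open Pool.Agent.LHC (Rg DeepN De Br CZ Ctr nxt nxG glueS sAdj LN LC LO)

theorem gg_exists {V : Type} [Finite V] {H : SimpleGraph V}
    (h3 : ∀ v, 3 ≤ (H.neighborSet v).ncard) {l : ℕ}
    (hl : ∀ z y, H.Adj z y → ∃ t, CW H l z y t) {M : ℕ}
    (hM : ∀ m, M ≤ m → ∀ x y a b, H.Adj x y → H.Adj a b → (Rch H m x y a b ↔ PWalk H m y b))
    {x0 : V} {d : ℕ} (hd : (H.neighborSet x0).ncard = d + 1) {m : ℕ} (hm : M ≤ m) {z y : V}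
    (hzy : H.Adj z y) (hp : PWalk H m y x0) : ∃ P T, GG H x0 m l d z y P T := by
  obtain ⟨b, hb⟩ : (H.neighborSet x0).Nonempty := by
    rw [← Set.ncard_pos (Set.toFinite _)]
    omega
  have hb' : H.Adj x0 b := hb
  have hr : Rch H m z y b x0 := (hM m hm z y b x0 hzy hb'.symm).2 hp
  obtain ⟨P, p0, p1, pm, pl, padj, pnb⟩ := (rch_seq hzy).1 hr
  obtain ⟨t0, ht0, ht0'⟩ : ∃ t0 ∈ H.neighborSet y, t0 ∉ ({z, P 2} : Set V) := by
    by_contra hcon
    push Not at hcon
    have h1 : H.neighborSet y ⊆ {z, P 2} := fun t ht => hcon t ht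
    have h2 := Set.ncard_le_ncard h1 (Set.toFinite _)
    have h4 : ({z, P 2} : Set V).ncard ≤ 2 := by
      refine (Set.ncard_insert_le _ _).trans ?_
      rw [Set.ncard_singleton]
    have := h3 y
    omega
  have hcard : Nat.card ↥(H.neighborSet x0 \ {P m}) = d := by
    rw [Nat.card_coe_set_eq]
    have h2 := Set.ncard_sdiff_singleton_add_one (show P m ∈ H.neighborSet x0 by rw [pm]; exact hb)
      (Set.toFinite _)
    omega
  let e : Fin d → V := fun i => ((Finite.equivFinOfCardEq hcard).symm i : V)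
  have he : ∀ i, e i ∈ H.neighborSet x0 \ {P m} := fun i =>
    ((Finite.equivFinOfCardEq hcard).symm i).2
  have hinj : Function.Injective e := fun i i' h =>
    (Finite.equivFinOfCardEq hcard).symm.injective (Subtype.ext h)
  obtain ⟨T0, hT0⟩ := hl y t0 ht0
  have h5 : ∀ i, ∃ t, CW H l x0 (e i) t := fun i => hl x0 (e i) (he i).1
  choose TS hTS using h5
  refine ⟨P, Fin.cases T0 TS, p0, p1, pl, padj, pnb, ?_, ?_, ?_, ?_, ?_, ?_, ?_, ?_⟩
  · change H.Adj y (T0 0)
    rw [hT0.t0]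
    exact ht0
  · change T0 0 ≠ z
    rw [hT0.t0]
    exact fun h => ht0' (Or.inl h)
  · change T0 0 ≠ P 2
    rw [hT0.t0]
    exact fun h => ht0' (Or.inr h)
  · intro i
    change H.Adj x0 (TS i 0)
    rw [(hTS i).t0]
    exact (he i).1
  · intro i
    change TS i 0 ≠ P m
    rw [(hTS i).t0]
    exact (he i).2
  · intro i i' h
    change TS i 0 = TS i' 0 at h
    rw [(hTS i).t0, (hTS i').t0] at h
    exact hinj h
  · change CW H l y (T0 0) T0
    rw [hT0.t0]
    exact hT0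
  · intro i
    change CW H l x0 (TS i 0) (TS i)
    rw [(hTS i).t0]
    exact hTS i

end Pool.Agent.LHE
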