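import Pool.Agent.LHE.Defs
import Pool.Agent.LHE.Cw
import Pool.Agent.LHE.GgX
import Pool.Agent.LHA.CellL

/-!
# The data of the gadgets exist

`d = |N(x0)| - 1`. `cwalk` gives `l`, `nb_all` gives `M0`. `F g` is not empty (`K.F` is `![range w, range t, range s, range Y]`, by cases on `g`); choose `f g ∈ F g`; `H.Adj (K.a g) (f g)` by `K.F_sub g` (`LHA/CellL.lean`). For every `g` take a walk `w g` (`H` is connected): for `g ≠ 0` from `f g` to `x0`, with the length `n g`; for `g = 0` a walk from `K.v` to `x0` of length `L0`, and `n 0 = L0 + K.j + 1`. `m g` is the one of the numbers `M0 + 1`, `M0 + 2` with the parity of `n g`, and `M = M0 + 2`. Then `m g ≥ 1`, `m g ≥ M0`. `ex g`: `gg_exists` with `PWalk H (m g) (f g) x0` (the walk `w g`).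
`ex0 x y`: `H.Adj x y` and there is a walk from `K.v` to `x` of length `K.j`; the walk `y, x, ..., K.v, ..., x0` (`Walk.cons`, `Walk.reverse`, `Walk.append`) has length `1 + K.j + L0`, so `PWalk H (m 0) y x0`; `gg_exists`.
-/

namespace Pool.Agent.LHE

open Pool.Agent.LIH Pool.Agent.LHA Pool.Agent.LHD
open Pool.Agent.LHC (Rg DeepN De Br CZ Ctr nxt nxG glueS sAdj LN LC LO)

theorem ga_exists {V : Type} [Finite V] {H : SimpleGraph V} (hc : H.Connected)
    (h3 : ∀ v, 3 ≤ (H.neighborSet v).ncard) (K : Kit H) (x0 : V) : ∃ A : GA K, A.x0 = x0 := by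
  obtain ⟨l, hl3, hl⟩ := cwalk h3
  obtain ⟨M0, hM⟩ := nb_all h3
  have hd : (H.neighborSet x0).ncard = ((H.neighborSet x0).ncard - 1) + 1 := by
    have := h3 x0
    omega
  have hF : ∀ g, ∃ f, f ∈ K.F g := by
    intro g
    fin_cases g
    · exact ⟨K.w true, true, rfl⟩
    · exact ⟨K.t true, true, rfl⟩
    · exact ⟨K.s true, true, rfl⟩
    · exact ⟨K.Y 0, 0, rfl⟩
  choose f hf using hF
  have hadj : ∀ g, H.Adj (K.a g) (f g) := fun g => K.F_sub g (hf g)
  have hw : ∀ g, ∃ w : H.Walk (f g) x0, True := fun g => by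
    obtain ⟨w⟩ := hc.preconnected (f g) x0
    exact ⟨w, trivial⟩
  choose wk _hwk using hw
  obtain ⟨w0⟩ := hc.preconnected K.v x0
  let n : Fin 4 → ℕ := fun g => if g = 0 then w0.length + K.j + 1 else (wk g).length
  let m : Fin 4 → ℕ := fun g => M0 + 1 + ((n g + M0 + 1) % 2)
  have hm : ∀ g, m g = M0 + 1 + ((n g + M0 + 1) % 2) := fun g => rfl
  have hpar : ∀ g, n g % 2 = m g % 2 := fun g => by
    rw [hm]
    omega
  refine ⟨{ x0 := x0, d := (H.neighborSet x0).ncard - 1, l := l, M := M0 + 2, m := m, f := f,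
            hd := hd, hl := hl3, m1 := fun g => by rw [hm]; omega,
            mM := fun g => by rw [hm]; omega, fF := hf, ex := ?_, ex0 := ?_ }, rfl⟩
  · intro g hg
    refine gg_exists h3 hl hM hd (by rw [hm]; omega) (hadj g) ⟨wk g, ?_⟩
    rw [← hpar g]
    change _ = (if g = 0 then w0.length + K.j + 1 else (wk g).length) % 2
    rw [if_neg hg]
  · rintro x y hxy ⟨w, hw⟩
    refine gg_exists h3 hl hM hd (by rw [hm]; omega) hxy
      ⟨SimpleGraph.Walk.cons hxy.symm (w.reverse.append w0), ?_⟩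
    rw [← hpar 0]
    change _ = (if (0 : Fin 4) = 0 then w0.length + K.j + 1 else (wk 0).length) % 2
    rw [if_pos rfl, SimpleGraph.Walk.length_cons, SimpleGraph.Walk.length_append,
      SimpleGraph.Walk.length_reverse, hw]
    congr 1
    omega

end Pool.Agent.LHE
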