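import Pool.Agent.LHE.Defs
import Pool.Agent.LHE.Bp
import Pool.Agent.LHA.CellL

/-!
# Colourings extend to the gadgets

Let `c' = A.col c P T`: `c' k (inl y) = c k y`, on the path of the gadget `g` the vertex `p` has the value `P k g (p + 1)`, on the cycle `i` the vertex `c` has the value `T k g i c`. Write `z = zz k g = P 0`, `y = yy k g = P 1`, `P (m + 1) = x0` (`GG`). `i ≠ 0` is `Fin.succ i'`.
`hom`: by `be_adj` and symmetry the cases of `eR`: arms: `hc.hom`. `fv 2 (j-1)` and `c0 0`: `P 0 ∼ P 1` (`adjP 0`, `z0`). Path: `adjP (p + 1)` with `p + 1 ≤ m g`. Path and cycle: `i = 0`, `p = 0`: `P 1 = y ∼ T 0 0` (`adj0`); `i ≠ 0`, `p = m g`: `P (m + 1) = x0 ∼ T i 0` (`adjS`). Cycle: `CW.adj`; `c + 1 = l`, `c' = 0`: `T i (l - 1) ∼ T i l = T i 0` (`CW.per 0`).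
`inj`: two neighbours of `s` with the same value. `s = inl y` (`be_arm`): two neighbours in `K.B`: `hc.inj`; one of them `c0 0` (then `y = fv 2 (j-1)`), its value is `yy k 0`, the other one `inl y'`: `hx.y0`. `s` in a path (`be_path`), vertex `p`: the neighbours are the vertex `fv 2 (j-1)` (only if `g = 0`, `p = 0`) with the value `P 0`, the vertex `p - 1` with the value `P p`, the vertex `p + 1 ≤ m g` with the value `P (p + 2)`, the vertex `0` of the cycle `0` if `p = 0` with the value `T 0 0`, the vertices `0` of the cycles `i ≠ 0` if `p = m g`. Different by `nbP p` (`p < m g`), `t0z` (with `p0`), `t0p`, `tsp` (`p = m g`: the vertex `p - 1` has the value `P m`), `inj`; `p = 0` and `p = m g` is impossible (`m1`).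
`s` in a cycle, vertex `c` (`be_cyc`): the next vertex has the value `T i (c + 1)` (also for `c = l - 1`: `T i 0 = T i l`), the previous one the value `T i (c - 1)` (for `c = 0`: `T i (l - 1)`), these are different by `CW.nb` (for `c = 0`: `T i (l - 1) ≠ T i (l + 1) = T i 1`); if `c = 0` there is the vertex of the path with the value `P 1 = y` (`i = 0`) or `P (m + 1) = x0` (`i ≠ 0`), different from `T i 1`, `T i (l - 1)` by `CW.a1`, `CW.a2` (`cw0`, `cws`). (`l ≥ 3`.)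
`mem`: arms: `hc.mem`; `c0 g`, `g ≠ 0`, `i = g`: `P 1 = yy k g ∈ F g` (`p1`, `yF`). `ne`: `s = inl y`: `inl y'`: `hc.ne`; `c0 0`: `hx.y1`. `s = c0 g`, `g ≠ 0`, `i = g`: the neighbours have the values `P 2` (`≠ P 0 = a g`, `nbP 0`, `zg`), `T 0 0` (`t0z`), and `p = 0 = m g` is impossible. `ne'`: arms: `hc.ne'`; a path vertex is attached only to `(k, g)`. `dis`: two arms: `hc.dis`. An arm vertex `y` of `k'` and `c0 g` of `k = l`, `i = g ≠ 0`: `atN` gives `i = q.succ` and `lk q k' l` for some `q`, in contradiction to the last condition in `atE`. Two path vertices: `g = i = g'`, `k = l = k'`, `p = 0 = p'`.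
-/

namespace Pool.Agent.LHE

open Pool.Agent.LIH Pool.Agent.LHA Pool.Agent.LHD
open Pool.Agent.LHC (Rg DeepN De Br CZ Ctr nxt nxG glueS sAdj LN LC LO)

variable {V : Type} {H : SimpleGraph V} {K : Kit H} (A : GA K)

section

variable {N : Ntw} {c : Fin N.K → (Fin 3 × Fin K.len) → V} {zz yy : Fin N.K → Fin 4 → V}
  {P : Fin N.K → Fin 4 → ℕ → V} {T : Fin N.K → Fin 4 → Fin (A.d + 1) → ℕ → V}

theorem GcE_cw {x0 : V} {m l d : ℕ} {z y : V} {P : ℕ → V} {T : Fin (d + 1) → ℕ → V}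
    (h : GG H x0 m l d z y P T) (i : Fin (d + 1)) :
    ∃ w, CW H l w (T i 0) (T i) ∧ (i = 0 → w = P 1) ∧ (i ≠ 0 → w = P (m + 1)) := by
  induction i using Fin.cases with
  | zero => exact ⟨y, h.cw0, fun _ => h.p1.symm, fun h => absurd rfl h⟩
  | succ i => exact ⟨x0, h.cws i, fun h => absurd h (Fin.succ_ne_zero i), fun _ => h.pm.symm⟩

theorem GcE_ne0 {d : ℕ} {i : Fin (d + 1)} (h : i ≠ 0) : ∃ j : Fin d, i = j.succ :=
  ⟨i.pred h, (Fin.succ_pred i h).symm⟩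

theorem GcE_hom1 (hc : GoodCol H K.a K.F K.B (atN K N) c) (hx : CPx A N c zz yy P T) (k : Fin N.K)
    {s t : A.Y} (h : A.eR s t) : H.Adj (A.col c P T k s) (A.col c P T k t) := by
  rcases s with y | ⟨g, p | ⟨i, q⟩⟩ <;> rcases t with y' | ⟨g', p' | ⟨i', q'⟩⟩
  · exact hc.hom k y y' h
  · obtain ⟨rfl, rfl, hp⟩ := h
    show H.Adj (c k (K.fv 2 (K.j - 1))) (P k 0 (p'.1 + 1))
    rw [hp, ← hx.z0 k, ← (hx.gg k 0).p0]
    exact (hx.gg k 0).adjP 0 (Nat.zero_le _)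
  · exact absurd h id
  · exact absurd h id
  · obtain ⟨rfl, hp, hm⟩ := h
    show H.Adj (P k g (p.1 + 1)) (P k g (p'.1 + 1))
    rw [hp]
    exact (hx.gg k g).adjP (p.1 + 1) (hp ▸ hm)
  · obtain ⟨rfl, hq, hi⟩ := h
    show H.Adj (P k g (p.1 + 1)) (T k g i' q'.1)
    rw [hq]
    rcases hi with ⟨rfl, hp⟩ | ⟨hi, hp⟩
    · rw [hp, (hx.gg k g).p1]
      exact (hx.gg k g).adj0
    · obtain ⟨j, rfl⟩ := GcE_ne0 hi
      rw [hp, (hx.gg k g).pm]
      exact (hx.gg k g).adjS j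
  · exact absurd h id
  · exact absurd h id
  · obtain ⟨rfl, rfl, hq⟩ := h
    show H.Adj (T k g i q.1) (T k g i q'.1)
    obtain ⟨w, hw, -, -⟩ := GcE_cw (hx.gg k g) i
    rcases hq with hq | ⟨hq, hq'⟩
    · rw [hq]
      exact hw.adj _
    · have h1 := hw.adj q.1
      have h2 := hw.per 0
      rw [Nat.zero_add] at h2
      have h3 : T k g i (q.1 + 1) = T k g i 0 := by
        rw [hq]
        exact h2
      rw [hq', ← h3]
      exact h1

theorem GcE_hom (hc : GoodCol H K.a K.F K.B (atN K N) c) (hx : CPx A N c zz yy P T) (k : Fin N.K)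
    (s t : A.Y) (h : A.BE.Adj s t) : H.Adj (A.col c P T k s) (A.col c P T k t) := by
  rcases (be_adj A s t).1 h with h | h
  · exact GcE_hom1 A hc hx k h
  · exact (GcE_hom1 A hc hx k h).symm

/-- the values on the neighbours of a vertex of the path -/
theorem GcE_inj_path (hx : CPx A N c zz yy P T) (k : Fin N.K) (g : Fin 4) (p : Fin (A.M + 1))
    (t1 t2 : A.Y) (h1 : A.BE.Adj (.inr (g, .inl p)) t1) (h2 : A.BE.Adj (.inr (g, .inl p)) t2)
    (he : A.col c P T k t1 = A.col c P T k t2) : t1 = t2 := by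
  have hm := A.m1 g
  have hg := hx.gg k g
  have hT : ∀ i i' : Fin (A.d + 1), i ≠ 0 → i' ≠ 0 → T k g i 0 = T k g i' 0 → i = i' := by
    intro i i' hi hi' hT
    obtain ⟨j, rfl⟩ := GcE_ne0 hi
    obtain ⟨j', rfl⟩ := GcE_ne0 hi'
    rw [hg.inj j j' hT]
  have hTm : ∀ i : Fin (A.d + 1), i ≠ 0 → T k g i 0 ≠ P k g (A.m g) := by
    intro i hi
    obtain ⟨j, rfl⟩ := GcE_ne0 hi
    exact hg.tsp j
  rw [be_path] at h1 h2
  rcases h1 with ⟨hg0, hp, rfl⟩ | ⟨p1, rfl, hp1⟩ | ⟨i1, q1, rfl, hq1, hi1⟩ <;>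
  rcases h2 with ⟨hg0', hp', rfl⟩ | ⟨p2, rfl, hp2⟩ | ⟨i2, q2, rfl, hq2, hi2⟩
  · rfl
  · exfalso
    subst hg0
    have he' : c k (K.fv 2 (K.j - 1)) = P k 0 (p2.1 + 1) := he
    rcases hp2 with ⟨a1, a2⟩ | ⟨a1, a2⟩
    · rw [← hx.z0 k, ← hg.p0, a1, hp] at he'
      exact hg.nbP 0 (by omega) he'
    · omega
  · exfalso
    subst hg0
    have he' : c k (K.fv 2 (K.j - 1)) = T k 0 i2 q2.1 := he
    rcases hi2 with ⟨rfl, a2⟩ | ⟨a1, a2⟩
    · rw [← hx.z0 k, hq2] at he'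
      exact hg.t0z he'.symm
    · omega
  · exfalso
    subst hg0'
    have he' : P k 0 (p1.1 + 1) = c k (K.fv 2 (K.j - 1)) := he
    rcases hp1 with ⟨a1, a2⟩ | ⟨a1, a2⟩
    · rw [← hx.z0 k, ← hg.p0, a1, hp'] at he'
      exact hg.nbP 0 (by omega) he'.symm
    · omega
  · have he' : P k g (p1.1 + 1) = P k g (p2.1 + 1) := he
    rcases hp1 with ⟨a1, a2⟩ | ⟨a1, a2⟩ <;> rcases hp2 with ⟨b1, b2⟩ | ⟨b1, b2⟩
    · have : p1 = p2 := Fin.ext (by omega)
      rw [this]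
    · exfalso
      rw [a1, ← b1] at he'
      exact hg.nbP p.1 (by omega) he'.symm
    · exfalso
      rw [b1, ← a1] at he'
      exact hg.nbP p.1 (by omega) he'
    · have : p1 = p2 := Fin.ext (by omega)
      rw [this]
  · exfalso
    have he' : P k g (p1.1 + 1) = T k g i2 q2.1 := he
    rw [hq2] at he'
    rcases hp1 with ⟨a1, a2⟩ | ⟨a1, a2⟩ <;> rcases hi2 with ⟨rfl, b2⟩ | ⟨b1, b2⟩
    · rw [a1, b2] at he'
      exact hg.t0p he'.symm
    · omega
    · omega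
    · rw [← a1, b2] at he'
      exact hTm i2 b1 he'.symm
  · exfalso
    subst hg0'
    have he' : T k 0 i1 q1.1 = c k (K.fv 2 (K.j - 1)) := he
    rcases hi1 with ⟨rfl, a2⟩ | ⟨a1, a2⟩
    · rw [← hx.z0 k, hq1] at he'
      exact hg.t0z he'
    · omega
  · exfalso
    have he' : T k g i1 q1.1 = P k g (p2.1 + 1) := he
    rw [hq1] at he'
    rcases hp2 with ⟨a1, a2⟩ | ⟨a1, a2⟩ <;> rcases hi1 with ⟨rfl, b2⟩ | ⟨b1, b2⟩
    · rw [a1, b2] at he'
      exact hg.t0p he'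
    · omega
    · omega
    · rw [← a1, b2] at he'
      exact hTm i1 b1 he'
  · have he' : T k g i1 q1.1 = T k g i2 q2.1 := he
    have hq : q1 = q2 := Fin.ext (by omega)
    rw [hq1, hq2] at he'
    have hi : i1 = i2 := by
      rcases hi1 with ⟨rfl, a2⟩ | ⟨a1, a2⟩ <;> rcases hi2 with ⟨rfl, b2⟩ | ⟨b1, b2⟩
      · rfl
      · omega
      · omega
      · exact hT i1 i2 a1 b1 he'
    rw [hq, hi]

/-- the values on the neighbours of a vertex of a cycle -/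
theorem GcE_inj_cyc (hx : CPx A N c zz yy P T) (k : Fin N.K) (g : Fin 4) (i : Fin (A.d + 1))
    (q : Fin A.l) (t1 t2 : A.Y) (h1 : A.BE.Adj (.inr (g, .inr (i, q))) t1)
    (h2 : A.BE.Adj (.inr (g, .inr (i, q))) t2)
    (he : A.col c P T k t1 = A.col c P T k t2) : t1 = t2 := by
  have hl := A.hl
  have hq := q.2
  obtain ⟨w, hw, hw0, hw1⟩ := GcE_cw (hx.gg k g) i
  -- the path vertex
  have hd : ∀ p : Fin (A.M + 1), ((i = 0 ∧ p.1 = 0) ∨ (i ≠ 0 ∧ p.1 = A.m g)) →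
      P k g (p.1 + 1) = w := by
    rintro p (⟨a1, a2⟩ | ⟨a1, a2⟩)
    · rw [a2, hw0 a1]
    · rw [a2, hw1 a1]
  -- next and previous vertex
  have hnp : ∀ q' : Fin A.l, (q'.1 = q.1 + 1 ∨ (q.1 + 1 = A.l ∧ q'.1 = 0) ∨
      q.1 = q'.1 + 1 ∨ (q'.1 + 1 = A.l ∧ q.1 = 0)) →
      ((q'.1 = q.1 + 1 ∨ (q.1 + 1 = A.l ∧ q'.1 = 0)) ∧ T k g i q'.1 = T k g i (q.1 + 1)) ∨
      ((q.1 = q'.1 + 1 ∨ (q'.1 + 1 = A.l ∧ q.1 = 0)) ∧
        T k g i (q'.1 + 2) = T k g i (q.1 + 1)) := by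
    rintro q' (a | ⟨a, b⟩ | a | ⟨a, b⟩)
    · left
      exact ⟨Or.inl a, by rw [a]⟩
    · left
      refine ⟨Or.inr ⟨a, b⟩, ?_⟩
      rw [a, b, ← hw.per 0, Nat.zero_add]
    · right
      exact ⟨Or.inl a, by rw [a]⟩
    · right
      refine ⟨Or.inr ⟨a, b⟩, ?_⟩
      have h3 : q'.1 + 2 = (0 + 1) + A.l := by omega
      rw [h3, hw.per, b]
  have hdn : ∀ q' : Fin A.l, q.1 = 0 → (q'.1 = q.1 + 1 ∨ (q.1 + 1 = A.l ∧ q'.1 = 0) ∨
      q.1 = q'.1 + 1 ∨ (q'.1 + 1 = A.l ∧ q.1 = 0)) → T k g i q'.1 ≠ w := by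
    rintro q' hq0 (a | ⟨a, b⟩ | a | ⟨a, b⟩)
    · rw [a, hq0]
      exact hw.a1
    · omega
    · omega
    · have : q'.1 = A.l - 1 := by omega
      rw [this]
      exact hw.a2
  rw [be_cyc] at h1 h2
  rcases h1 with ⟨p1, rfl, hq1, hi1⟩ | ⟨q1, rfl, hq1⟩ <;>
  rcases h2 with ⟨p2, rfl, hq2, hi2⟩ | ⟨q2, rfl, hq2⟩
  · have : p1 = p2 := by
      apply Fin.ext
      rcases hi1 with ⟨a1, a2⟩ | ⟨a1, a2⟩ <;> rcases hi2 with ⟨b1, b2⟩ | ⟨b1, b2⟩
      · rw [a2, b2]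
      · exact absurd a1 b1
      · exact absurd b1 a1
      · rw [a2, b2]
    rw [this]
  · exfalso
    have he' : P k g (p1.1 + 1) = T k g i q2.1 := he
    rw [hd p1 hi1] at he'
    exact hdn q2 hq1 hq2 he'.symm
  · exfalso
    have he' : T k g i q1.1 = P k g (p2.1 + 1) := he
    rw [hd p2 hi2] at he'
    exact hdn q1 hq2 hq1 he'
  · have he' : T k g i q1.1 = T k g i q2.1 := he
    have hqq : q1 = q2 := by
      rcases hnp q1 hq1 with ⟨a, b⟩ | ⟨a, b⟩ <;> rcases hnp q2 hq2 with ⟨a', b'⟩ | ⟨a', b'⟩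
      · apply Fin.ext
        omega
      · exfalso
        rw [b, ← b'] at he'
        exact hw.nb _ he'.symm
      · exfalso
        rw [b', ← b] at he'
        exact hw.nb _ he'
      · apply Fin.ext
        omega
    rw [hqq]

end

theorem good_ext (N : Ntw) {c : Fin N.K → (Fin 3 × Fin K.len) → V}
    (hc : GoodCol H K.a K.F K.B (atN K N) c) {zz yy : Fin N.K → Fin 4 → V}
    {P : Fin N.K → Fin 4 → ℕ → V} {T : Fin N.K → Fin 4 → Fin (A.d + 1) → ℕ → V}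
    (hx : CPx A N c zz yy P T) : GoodCol H K.a K.F A.BE (A.atEN N) (A.col c P T) := by
  have key : ∀ (l : Fin N.K) (i : Fin 4) (k : Fin N.K) (y : Fin 3 × Fin K.len) (k' : Fin N.K)
      (g : Fin 4) (p : Fin (A.M + 1)), A.atEN N k (.inl y) l i → A.atEN N k' (.inr (g, .inl p)) l i →
      False := by
    intro l i k y k' g p h h'
    obtain ⟨hp, hg, rfl, hk, hn⟩ := h'
    rcases h with ⟨hi, -, -⟩ | ⟨q, hq, -, hlk⟩
    · exact hg hi
    · exact hn ⟨q, hq.symm, k.1, k.2, hlk⟩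
  refine { hom := GcE_hom A hc hx, inj := ?_, mem := ?_, ne := ?_, ne' := ?_, dis := ?_ }
  · intro k s t1 t2 h1 h2 he
    rcases s with y | ⟨g, p | ⟨i, q⟩⟩
    · rw [be_arm] at h1 h2
      rcases h1 with ⟨y1, rfl, hy1⟩ | ⟨hy, rfl⟩ <;> rcases h2 with ⟨y2, rfl, hy2⟩ | ⟨hy', rfl⟩
      · rw [hc.inj k y y1 y2 hy1 hy2 he]
      · exfalso
        subst hy'
        have he' : c k y1 = P k 0 (0 + 1) := he
        rw [Nat.zero_add, (hx.gg k 0).p1] at he'
        exact hx.y0 k y1 hy1 he'.symm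
      · exfalso
        subst hy
        have he' : P k 0 (0 + 1) = c k y2 := he
        rw [Nat.zero_add, (hx.gg k 0).p1] at he'
        exact hx.y0 k y2 hy2 he'
      · rfl
    · exact GcE_inj_path A hx k g p t1 t2 h1 h2 he
    · exact GcE_inj_cyc A hx k g i q t1 t2 h1 h2 he
  · intro k s l i h
    rcases s with y | ⟨g, p | ⟨i', q⟩⟩
    · exact hc.mem k y l i h
    · obtain ⟨hp, hg, rfl, hk, hn⟩ := h
      show P k i (p.1 + 1) ∈ K.F i
      rw [hp, Nat.zero_add, (hx.gg k i).p1]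
      exact hx.yF k i hg
    · exact absurd h id
  · intro k s t l i hst h
    rcases s with y | ⟨g, p | ⟨i', q⟩⟩
    · rw [be_arm] at hst
      rcases hst with ⟨y', rfl, hy⟩ | ⟨hy, rfl⟩
      · exact hc.ne k y y' l i hy h
      · subst hy
        show P k 0 (0 + 1) ≠ K.a i
        rw [Nat.zero_add, (hx.gg k 0).p1]
        exact hx.y1 k l i h
    · obtain ⟨hp, hg, rfl, hk, hn⟩ := h
      have hm := A.m1 i
      have hgg := hx.gg k i
      rw [← hx.zg k i hg]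
      rw [be_path] at hst
      rcases hst with ⟨hg0, -, rfl⟩ | ⟨p1, rfl, hp1⟩ | ⟨i1, q1, rfl, hq1, hi1⟩
      · exact absurd hg0 hg
      · show P k i (p1.1 + 1) ≠ zz k i
        rcases hp1 with ⟨a1, a2⟩ | ⟨a1, a2⟩
        · rw [a1, hp, ← hgg.p0]
          exact (hgg.nbP 0 (by omega)).symm
        · omega
      · show T k i i1 q1.1 ≠ zz k i
        rcases hi1 with ⟨rfl, a2⟩ | ⟨a1, a2⟩
        · rw [hq1]
          exact hgg.t0z
        · omega
    · exact absurd h id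
  · intro k s l i l' i' h h' ha
    rcases s with y | ⟨g, p | ⟨i', q⟩⟩
    · exact hc.ne' k y l i l' i' h h' ha
    · obtain ⟨hp, hg, rfl, hk, hn⟩ := h
      obtain ⟨-, -, rfl, hk', -⟩ := h'
      exact ⟨Fin.ext (hk.symm.trans hk'), rfl⟩
    · exact absurd h id
  · intro l i k s k' s' h h' he
    rcases s with y | ⟨g, p | ⟨i1, q⟩⟩ <;> rcases s' with y' | ⟨g', p' | ⟨i1', q'⟩⟩
    · obtain ⟨rfl, rfl⟩ := hc.dis l i k y k' y' h h' he
      exact ⟨rfl, rfl⟩
    · exact (key l i k y k' g' p' h h').elim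
    · exact absurd h' id
    · exact (key l i k' y' k g p h' h).elim
    · obtain ⟨hp, hg, rfl, hk, hn⟩ := h
      obtain ⟨hp', -, rfl, hk', -⟩ := h'
      have h1 : k = k' := Fin.ext (hk.trans hk'.symm)
      have h2 : p = p' := Fin.ext (hp.trans hp'.symm)
      exact ⟨h1, by rw [h2]⟩
    · exact absurd h' id
    · exact absurd h id
    · exact absurd h id
    · exact absurd h id

end Pool.Agent.LHE
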