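import Pool.Agent.LHE.Defs
import Pool.Agent.LHE.Bp
import Pool.Agent.LHA.CellL

/-!
# The values of the gadgets exist

`zz k g = K.a g` and `yy k g = A.f g` for `g ≠ 0`, with `P k g`, `T k g` from `A.ex g`. For `g = 0`: let `x = c k (fv 2 (j - 1))`. There is a walk from `K.v` to `x` of length `K.j`: `K.v`, `c k (fv 2 0)`, ..., `c k (fv 2 (j - 1))`: `fv 2 0` is attached to the root `0` (`atN`, first alternative), so `c k (fv 2 0) ∈ K.F 0 ⊆ N(K.v)` (`hc.mem`, `K.F_sub`); the steps by `hc.hom` and `K.B_arm 2` (`L 2 = j`); by induction: for `p < K.j` there is a walk of length `p + 1` to `c k (fv 2 p)`. Let `prev = K.v` if `j = 1` and `prev = c k (fv 2 (j - 2))` otherwise. Since `3 ≤ |N(x)|` there is `y ∈ N(x)` with `y ≠ prev`, `y ≠ K.X`.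
`zz k 0 = x`, `yy k 0 = y`, `P k 0`, `T k 0` from `A.ex0 x y`. `y0`: by `K.B_cases` (`LHA/CellL.lean`) and `fv_inj` the only neighbour of `fv 2 (j - 1)` in `K.B` is `fv 2 (j - 2)`, and only if `j ≥ 2` (`fv 2 p` and `fv 2 (p + 1)` with `p + 1 < j`). `y1`: `fv 2 (j - 1)` is attached to the root `0` only if it is `fv 2 0`, that is `j = 1` (`fv_inj`), `K.a 0 = K.v = prev`; it is `K.en q` only for `q = 2` (the first component of `K.en 0`, `K.en 1` is not `2`), `K.a 3 = K.X`. (Choose `P`, `T` for all `k`, `g` by `choose`.)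
-/

namespace Pool.Agent.LHE

open Pool.Agent.LIH Pool.Agent.LHA Pool.Agent.LHD
open Pool.Agent.LHC (Rg DeepN De Br CZ Ctr nxt nxG glueS sAdj LN LC LO)

variable {V : Type} {H : SimpleGraph V} {K : Kit H} (A : GA K)

theorem gcx_walk (N : Ntw) {c : Fin N.K → (Fin 3 × Fin K.len) → V}
    (hc : GoodCol H K.a K.F K.B (atN K N) c) (k : Fin N.K) :
    ∀ p, p < K.j → ∃ w : H.Walk K.v (c k (K.fv 2 p)), w.length = p + 1 := by
  intro p
  induction p with
  | zero =>
    intro _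
    have h1 : c k (K.fv 2 0) ∈ K.F 0 := hc.mem k _ k 0 (Or.inl ⟨rfl, rfl, Or.inr rfl⟩)
    have h2 : H.Adj K.v (c k (K.fv 2 0)) := K.F_sub 0 h1
    exact ⟨SimpleGraph.Walk.cons h2 SimpleGraph.Walk.nil, rfl⟩
  | succ p ih =>
    intro hp
    obtain ⟨w, hw⟩ := ih (by omega)
    have h1 : H.Adj (c k (K.fv 2 p)) (c k (K.fv 2 (p + 1))) := hc.hom k _ _ (Kit.B_arm K 2 hp)
    exact ⟨w.concat h1, by rw [SimpleGraph.Walk.length_concat, hw]⟩

theorem gcx_fst {i i' : Fin 3} {p p' : ℕ} (h : K.fv i p = K.fv i' p') : i = i' := congrArg Prod.fst h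

theorem cpx_exists [Finite V] (h3 : ∀ v, 3 ≤ (H.neighborSet v).ncard) (N : Ntw)
    {c : Fin N.K → (Fin 3 × Fin K.len) → V} (hc : GoodCol H K.a K.F K.B (atN K N) c) :
    ∃ zz yy P T, CPx A N c zz yy P T := by
  classical
  have hj := K.j_pos
  have hL : K.L 2 = K.j := rfl
  set prev : Fin N.K → V := fun k => if K.j = 1 then K.v else c k (K.fv 2 (K.j - 2)) with hprev
  have key : ∀ (k : Fin N.K) (g : Fin 4), ∃ (z y : V) (P : ℕ → V) (T : Fin (A.d + 1) → ℕ → V),
      GG H A.x0 (A.m g) A.l A.d z y P T ∧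
      (g = 0 → z = c k (K.fv 2 (K.j - 1)) ∧ y ≠ prev k ∧ y ≠ K.X) ∧
      (g ≠ 0 → z = K.a g ∧ y ∈ K.F g) := by
    intro k g
    by_cases hg : g = 0
    · subst hg
      have h1 : ({prev k, K.X} : Set V).ncard < (H.neighborSet (c k (K.fv 2 (K.j - 1)))).ncard := by
        have h2 : ({prev k, K.X} : Set V).ncard ≤ 2 := by
          refine (Set.ncard_insert_le _ _).trans ?_
          rw [Set.ncard_singleton]
        have := h3 (c k (K.fv 2 (K.j - 1)))
        omega
      obtain ⟨y, hy, hy'⟩ := Set.exists_mem_notMem_of_ncard_lt_ncard h1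
      have hy1 : y ≠ prev k := fun h => hy' (Or.inl h)
      have hy2 : y ≠ K.X := fun h => hy' (Or.inr h)
      obtain ⟨w, hw⟩ := gcx_walk N hc k (K.j - 1) (by omega)
      obtain ⟨P, T, h⟩ := A.ex0 (c k (K.fv 2 (K.j - 1))) y hy ⟨w, by rw [hw]; omega⟩
      exact ⟨_, y, P, T, h, fun _ => ⟨rfl, hy1, hy2⟩, fun h => absurd rfl h⟩
    · obtain ⟨P, T, h⟩ := A.ex g hg
      exact ⟨K.a g, A.f g, P, T, h, fun h => absurd h hg, fun _ => ⟨rfl, A.fF g⟩⟩
  choose zz yy P T h1 h2 h4 using key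
  refine ⟨zz, yy, P, T, ?_⟩
  refine
    { gg := h1
      z0 := fun k => (h2 k 0 rfl).1
      zg := fun k g hg => (h4 k g hg).1
      yF := fun k g hg => (h4 k g hg).2
      y0 := ?_
      y1 := ?_ }
  · intro k y hy
    rcases K.B_cases hy with ⟨i, p, hp, e1, e2⟩ | ⟨i, p, hp, e1, e2⟩ | ⟨-, e1, -⟩ | ⟨-, e1, -⟩
    · obtain ⟨e3, e4⟩ := K.fv_inj (by omega) (by omega) e1
      subst e3
      omega
    · obtain ⟨e3, e4⟩ := K.fv_inj (by omega) (by omega) e1
      subst e3
      have h5 : prev k = c k (K.fv 2 (K.j - 2)) := if_neg (by omega)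
      have h6 : K.j - 2 = p := by omega
      rw [e2, ← h6, ← h5]
      exact (h2 k 0 rfl).2.1
    · exact absurd (gcx_fst e1) (by decide)
    · exact absurd (gcx_fst e1) (by decide)
  · intro k l i hat
    rcases hat with ⟨rfl, -, e | e⟩ | ⟨q, rfl, e, -⟩
    · exact absurd (gcx_fst e) (by decide)
    · have h5 := (K.fv_inj (by omega) (by omega) e).2
      have h6 : prev k = K.v := if_pos (by omega)
      show yy k 0 ≠ K.v
      rw [← h6]
      exact (h2 k 0 rfl).2.1
    · have hq : q = 2 := by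
        have h5 : (2 : Fin 3) = (K.en q).1 := congrArg Prod.fst e
        fin_cases q
        · exact absurd h5 (show ¬ (2 : Fin 3) = (K.fv 0 K.m1).1 by show ¬ (2 : Fin 3) = 0; decide)
        · exfalso
          have h6 : (2 : Fin 3) = (if K.m2 = 0 then K.fv 0 0 else K.fv 1 (K.m2 - 1)).1 := h5
          split_ifs at h6
          · exact absurd h6 (show ¬ (2 : Fin 3) = 0 by decide)
          · exact absurd h6 (show ¬ (2 : Fin 3) = 1 by decide)
        · rfl
      subst hq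
      exact (h2 k 0 rfl).2.2

end Pool.Agent.LHE
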