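import Pool.Agent.LHE.Defs
import Pool.Agent.LHE.Bp
import Pool.Agent.LHE.GcE
import Pool.Agent.LHE.GcX

/-!
# Colourings with and without gadgets

(→) `c k y = c' k (inl y)`: all conditions are special cases: `K.B.Adj y y'` gives `A.BE.Adj (inl y) (inl y')` (`be_arm`), and `atN K N k y l i` is `A.atEN N k (inl y) l i` (by definition). (←) `cpx_exists` and `good_ext`.
-/

namespace Pool.Agent.LHE

open Pool.Agent.LIH Pool.Agent.LHA Pool.Agent.LHD
open Pool.Agent.LHC (Rg DeepN De Br CZ Ctr nxt nxG glueS sAdj LN LC LO)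

variable {V : Type} {H : SimpleGraph V} {K : Kit H} (A : GA K)

theorem good_iff [Finite V] (h3 : ∀ v, 3 ≤ (H.neighborSet v).ncard) (N : Ntw) :
    (∃ c, GoodCol H K.a K.F A.BE (A.atEN N) c) ↔ ∃ c, GoodCol H K.a K.F K.B (atN K N) c := by
  constructor
  · rintro ⟨c', hc'⟩
    have hadj : ∀ y y', K.B.Adj y y' → A.BE.Adj (.inl y) (.inl y') := fun y y' h =>
      (be_arm A y (.inl y')).2 (Or.inl ⟨y', rfl, h⟩)
    have hinj : ∀ {y y' : Fin 3 × Fin K.len}, (.inl y : A.Y) = .inl y' → y = y' := fun h =>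
      Sum.inl_injective h
    refine ⟨fun k y => c' k (.inl y), ?_⟩
    refine { hom := ?_, inj := ?_, mem := ?_, ne := ?_, ne' := ?_, dis := ?_ }
    · intro k y y' h
      exact hc'.hom k _ _ (hadj y y' h)
    · intro k y y1 y2 h1 h2 he
      exact hinj (hc'.inj k _ _ _ (hadj y y1 h1) (hadj y y2 h2) he)
    · intro k y l i h
      exact hc'.mem k (.inl y) l i h
    · intro k y y' l i h h'
      exact hc'.ne k (.inl y) (.inl y') l i (hadj y y' h) h'
    · intro k y l i l' i' h h' ha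
      exact hc'.ne' k (.inl y) l i l' i' h h' ha
    · intro l i k y k' y' h h' he
      obtain ⟨h1, h2⟩ := hc'.dis l i k (.inl y) k' (.inl y') h h' he
      exact ⟨h1, hinj h2⟩
  · rintro ⟨c, hc⟩
    obtain ⟨zz, yy, P, T, hx⟩ := cpx_exists A h3 N hc
    exact ⟨_, good_ext A N hc hx⟩

end Pool.Agent.LHE
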