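import Pool.Agent.LHE.Defs
import Pool.Agent.LHE.Bp
import Pool.Agent.LHD.GlX

/-!
# Adjacency in the glued graph

`ge_adj`: `GlX_adj` (`LHD/GlX.lean`). The others: special cases (`sAdj` by definition).
-/

namespace Pool.Agent.LHE

open Pool.Agent.LIH Pool.Agent.LHA Pool.Agent.LHD
open Pool.Agent.LHC (Rg DeepN De Br CZ Ctr nxt nxG glueS sAdj LN LC LO)

variable {V : Type} [Finite V] {H : SimpleGraph V} (D : DX H) {K : Kit H} (A : GA K) (N : Ntw)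

theorem ge_adj [Finite D.U] (u v : Fin N.K × (CZ (ZX D) V D.r ⊕ A.Y)) : (GE D A N).Adj u v ↔
    sAdj (gD D (nxG N.K D.U)) (roD D) A.BE (A.atEN N) u v :=
  GlX_adj _ _ _ _ u v

theorem ge_ll [Finite D.U] (k l : Fin N.K) (s t : CZ (ZX D) V D.r) :
    (GE D A N).Adj (k, .inl s) (l, .inl t) ↔ (gD D (nxG N.K D.U)).Adj (k, s) (l, t) :=
  ge_adj D A N _ _

theorem ge_rr [Finite D.U] (k l : Fin N.K) (s t : A.Y) :
    (GE D A N).Adj (k, .inr s) (l, .inr t) ↔ k = l ∧ A.BE.Adj s t :=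
  ge_adj D A N _ _

theorem ge_rl [Finite D.U] (k l : Fin N.K) (s : A.Y) (t : CZ (ZX D) V D.r) :
    (GE D A N).Adj (k, .inr s) (l, .inl t) ↔ ∃ i, t = roD D i ∧ A.atEN N k s l i :=
  ge_adj D A N _ _

end Pool.Agent.LHE
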