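import Pool.Agent.LHE.Defs
import Pool.Agent.LHE.Bp
import Pool.Agent.LHE.GeA
import Pool.Agent.LHA.CellL
import Pool.Agent.LHA.CellS

/-!
# The vertices of the arms have two neighbours

Every `y : Fin 3 × Fin K.len` is `K.fv q p` with `p = y.2 < K.len` (`CellL_eta`). If `p ≥ K.L q` then the vertex is isolated in the glued graph: `K.B_cases` and `fv_val` (all vertices in `B_cases` are `fv i p` with `p < L i`; `L_le`), it is not `fv 0 0`, `fv 2 0`, `fv 2 (j - 1)` or `en q` (these are `fv i p` with `p < L i`: `L 0 = m1 + 1`, `L 1 = m2`, `L 2 = j ≥ 1`; `en 1 = fv 0 0` if `m2 = 0`); so `h` is impossible (`ge_rr`, `be_arm`, `ge_rl`, `atZ`). Let `p < K.L q`. We give two different neighbours of `(k, inr (inl (fv q p)))`.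
One on the side of the start: `p ≥ 1`: `fv q (p - 1)` (`K.B_arm`); `q = 0, 2`, `p = 0`: the root `0` of the cell `k` (`ge_rl`, first alternative of `atZ`); `q = 1`, `p = 0`: `fv 0 0` (`K.B_01`, `m2 > 0`). One on the side of the end: `p + 1 < K.L q`: `fv q (p + 1)`. `p + 1 = K.L q`: `q = 0`: `p = m1`, `en 0 = fv 0 m1`; `q = 1`: `p = m2 - 1`, `en 1 = fv 1 (m2 - 1)`: by `N.tot q k` there is `l` with `N.lk q k l` (`CellS_tot`), and the root `q.succ` of the cell `l` is a neighbour (second alternative of `atZ`). `q = 2`: `p = j - 1`: `A.c0 0` (`be_arm`). They are different: by `fv_inj`, `inl ≠ inr`, and the two roots `0` and `q.succ` (if `q = 0`, `m1 = 0`) are different (`roD` is injective: `roD_inj` in `LHD/FinD.lean`, prove it again here as `LfA_roD_inj`).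
-/

namespace Pool.Agent.LHE

open Pool.Agent.LIH Pool.Agent.LHA Pool.Agent.LHD
open Pool.Agent.LHC (Rg DeepN De Br CZ Ctr nxt nxG glueS sAdj LN LC LO)

variable {V : Type} [Finite V] {H : SimpleGraph V} (D : DX H) {K : Kit H} (A : GA K) (N : Ntw)

omit [Finite V] in
theorem LfA_roD_inj {i j : Fin 4} (h : roD D i = roD D j) : i = j := by
  unfold roD at h
  have h1 := Sum.inl.inj h
  injection h1 with h2
  exact Sum.inl.inj h2

omit [Finite V] in
/-- ends of the arms have a position below `L` -/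
theorem LfA_en (q : Fin 3) : ∃ i p, p < K.L i ∧ K.en q = K.fv i p := by
  fin_cases q
  · exact ⟨0, K.m1, Nat.lt_succ_self _, rfl⟩
  · by_cases h : K.m2 = 0
    · exact ⟨0, 0, Nat.succ_pos _, if_pos h⟩
    · exact ⟨1, K.m2 - 1, Nat.sub_lt (Nat.pos_of_ne_zero h) one_pos, if_neg h⟩
  · exact ⟨2, K.j - 1, Nat.sub_lt K.j_pos one_pos, rfl⟩

/-- a vertex with a neighbour has a position below `L` -/
theorem LfA_pos [Finite D.U] (k : Fin N.K) (y : Fin 3 × Fin K.len)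
    (h : ∃ v, (GE D A N).Adj (k, .inr (.inl y)) v) : ∃ q p, p < K.L q ∧ y = K.fv q p := by
  have hj := K.j_pos
  have hL2 : K.L 2 = K.j := rfl
  have hL0 : K.L 0 = K.m1 + 1 := rfl
  have hL1 : K.L 1 = K.m2 := rfl
  obtain ⟨⟨l, t | t⟩, h⟩ := h
  · rw [ge_rl] at h
    obtain ⟨i, -, hat⟩ := h
    have hat' : atZ K N.lk k.1 y l.1 i := hat
    rcases hat' with ⟨-, -, e | e⟩ | ⟨q, -, e, -⟩
    · exact ⟨0, 0, by omega, e⟩
    · exact ⟨2, 0, by omega, e⟩
    · obtain ⟨i', p, hp, e'⟩ := LfA_en (K := K) q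
      exact ⟨i', p, hp, e.trans e'⟩
  · rw [ge_rr] at h
    rcases (be_arm A y t).1 h.2 with ⟨y', -, hy⟩ | ⟨hy, -⟩
    · rcases K.B_cases hy with ⟨i, p, hp, e1, e2⟩ | ⟨i, p, hp, e1, e2⟩ | ⟨h0, e1, -⟩ | ⟨h0, e1, -⟩
      · exact ⟨i, p, by omega, e1⟩
      · exact ⟨i, p + 1, hp, e1⟩
      · exact ⟨0, 0, by omega, e1⟩
      · exact ⟨1, 0, by omega, e1⟩
    · exact ⟨2, K.j - 1, by omega, hy⟩

/-- the neighbour on the side of the start -/
theorem LfA_start [Finite D.U] (k : Fin N.K) (q : Fin 3) {p : ℕ} (hp : p < K.L q) :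
    ∃ w, (GE D A N).Adj (k, .inr (.inl (K.fv q p))) w ∧
      ((∃ p', p = p' + 1 ∧ w = (k, .inr (.inl (K.fv q p')))) ∨
        (p = 0 ∧ w = (k, .inl (roD D 0))) ∨ (p = 0 ∧ q = 1 ∧ w = (k, .inr (.inl (K.fv 0 0))))) := by
  have hL1 : K.L 1 = K.m2 := rfl
  rcases p with _ | p
  · fin_cases q
    · refine ⟨(k, .inl (roD D 0)), ?_, Or.inr (Or.inl ⟨rfl, rfl⟩)⟩
      rw [ge_rl]
      exact ⟨0, rfl, Or.inl ⟨rfl, rfl, Or.inl rfl⟩⟩
    · refine ⟨(k, .inr (.inl (K.fv 0 0))), ?_, Or.inr (Or.inr ⟨rfl, rfl, rfl⟩)⟩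
      rw [ge_rr]
      refine ⟨rfl, (be_arm A _ _).2 (Or.inl ⟨_, rfl, ?_⟩)⟩
      exact (K.B_01 (by
        have h2 : 0 < K.L 1 := hp
        omega)).symm
    · refine ⟨(k, .inl (roD D 0)), ?_, Or.inr (Or.inl ⟨rfl, rfl⟩)⟩
      rw [ge_rl]
      exact ⟨0, rfl, Or.inl ⟨rfl, rfl, Or.inr rfl⟩⟩
  · refine ⟨(k, .inr (.inl (K.fv q p))), ?_, Or.inl ⟨p, rfl, rfl⟩⟩
    rw [ge_rr]
    exact ⟨rfl, (be_arm A _ _).2 (Or.inl ⟨_, rfl, (K.B_arm q hp).symm⟩)⟩

/-- the neighbour on the side of the end -/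
theorem LfA_end [Finite D.U] (k : Fin N.K) (q : Fin 3) {p : ℕ} (hp : p < K.L q) :
    ∃ w, (GE D A N).Adj (k, .inr (.inl (K.fv q p))) w ∧
      ((p + 1 < K.L q ∧ w = (k, .inr (.inl (K.fv q (p + 1))))) ∨
        (∃ l, w = (l, .inl (roD D q.succ))) ∨ w = (k, .inr (A.c0 0))) := by
  have hj := K.j_pos
  have hL2 : K.L 2 = K.j := rfl
  have hL0 : K.L 0 = K.m1 + 1 := rfl
  have hL1 : K.L 1 = K.m2 := rfl
  by_cases h1 : p + 1 < K.L q
  · refine ⟨(k, .inr (.inl (K.fv q (p + 1)))), ?_, Or.inl ⟨h1, rfl⟩⟩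
    rw [ge_rr]
    exact ⟨rfl, (be_arm A _ _).2 (Or.inl ⟨_, rfl, K.B_arm q h1⟩)⟩
  · by_cases hq : q = 2
    · subst hq
      refine ⟨(k, .inr (A.c0 0)), ?_, Or.inr (Or.inr rfl)⟩
      rw [ge_rr]
      refine ⟨rfl, (be_arm A _ _).2 (Or.inr ⟨?_, rfl⟩)⟩
      congr 1
      omega
    · obtain ⟨l, hl⟩ := CellS_tot N k q hq
      refine ⟨(l, .inl (roD D q.succ)), ?_, Or.inr (Or.inl ⟨l, rfl⟩)⟩
      rw [ge_rl]
      refine ⟨q.succ, rfl, Or.inr ⟨q, rfl, ?_, hl⟩⟩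
      fin_cases q
      · show K.fv 0 p = K.fv 0 K.m1
        congr 1
        have h2 : p < K.L 0 := hp
        have h3 : ¬ p + 1 < K.L 0 := h1
        omega
      · have h2 : p < K.L 1 := hp
        have h3 : ¬ p + 1 < K.L 1 := h1
        show K.fv 1 p = (if K.m2 = 0 then K.fv 0 0 else K.fv 1 (K.m2 - 1))
        rw [if_neg (by omega)]
        congr 1
        omega
      · exact absurd rfl hq

theorem lf_arm [Finite D.U] (k : Fin N.K) (y : Fin 3 × Fin K.len)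
    (h : ∃ v, (GE D A N).Adj (k, .inr (.inl y)) v) (v : Fin N.K × (CZ (ZX D) V D.r ⊕ A.Y)) :
    ∃ w, w ≠ v ∧ (GE D A N).Adj (k, .inr (.inl y)) w := by
  obtain ⟨q, p, hp, rfl⟩ := LfA_pos D A N k y h
  obtain ⟨w1, a1, c1⟩ := LfA_start D A N k q hp
  obtain ⟨w2, a2, c2⟩ := LfA_end D A N k q hp
  have hne : w1 ≠ w2 := by
    have hL0 : K.L 0 = K.m1 + 1 := rfl
    intro he
    rcases c1 with ⟨p', rfl, e1⟩ | ⟨-, e1⟩ | ⟨rfl, rfl, e1⟩ <;>
      rcases c2 with ⟨h2, e2⟩ | ⟨l, e2⟩ | e2 <;> rw [e1, e2] at he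
    · have h3 := Sum.inl.inj (Sum.inr.inj (Prod.mk.inj he).2)
      have := (K.fv_inj (by omega) h2 h3).2
      omega
    · exact absurd (Prod.mk.inj he).2 (by simp)
    · have h3 := Sum.inr.inj (Prod.mk.inj he).2
      unfold GA.c0 at h3
      exact absurd h3 (by simp)
    · exact absurd (Prod.mk.inj he).2 (by simp)
    · have h3 := LfA_roD_inj D (Sum.inl.inj (Prod.mk.inj he).2)
      exact absurd h3 (Fin.succ_ne_zero q).symm
    · exact absurd (Prod.mk.inj he).2 (by simp)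
    · have h3 := Sum.inl.inj (Sum.inr.inj (Prod.mk.inj he).2)
      exact absurd (congrArg Prod.fst h3) (show ¬ (0 : Fin 3) = 1 by decide)
    · exact absurd (Prod.mk.inj he).2 (by simp)
    · have h3 := Sum.inr.inj (Prod.mk.inj he).2
      unfold GA.c0 at h3
      exact absurd h3 (by simp)
  by_cases h1 : w1 = v
  · refine ⟨w2, ?_, a2⟩
    rw [← h1]
    exact hne.symm
  · exact ⟨w1, h1, a1⟩

end Pool.Agent.LHE
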