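import Pool.Agent.LHE.Defs
import Pool.Agent.LHE.Bp
import Pool.Agent.LHE.GeA

/-!
# The vertices of the gadgets have two neighbours

Path, vertex `p` (`be_path`): if `p > m g` (and `m g ≥ 1`) then it is isolated (`be_path`, and `ge_rl`: an attached vertex has `p = 0`), so `h` is impossible. `p = 0`: the vertex `1` of the path (`1 ≤ m g`) and the vertex `0` of the cycle `0`. `0 < p < m g`: `p - 1`, `p + 1`. `p = m g`: `p - 1` and the vertex `0` of the cycle `1` (`i = 1 ≠ 0` exists since `1 ≤ A.d`). Cycle, vertex `c` (`be_cyc`): the next and the previous vertex (`c + 1` or `0`, `c - 1` or `l - 1`), different because `l ≥ 3`.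
-/

namespace Pool.Agent.LHE

open Pool.Agent.LIH Pool.Agent.LHA Pool.Agent.LHD
open Pool.Agent.LHC (Rg DeepN De Br CZ Ctr nxt nxG glueS sAdj LN LC LO)

variable {V : Type} [Finite V] {H : SimpleGraph V} (D : DX H) {K : Kit H} (A : GA K) (N : Ntw)

theorem lfg_two {W : Type} (G : SimpleGraph W) {u a b : W} (hab : a ≠ b) (ha : G.Adj u a) (hb : G.Adj u b) (v : W) :
    ∃ w, w ≠ v ∧ G.Adj u w := by
  by_cases h : a = v
  · exact ⟨b, fun h' => hab (h.trans h'.symm), hb⟩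
  · exact ⟨a, h, ha⟩

theorem lfg_red [Finite D.U] (k : Fin N.K) (s a b : A.Y) (hab : a ≠ b) (ha : A.BE.Adj s a) (hb : A.BE.Adj s b)
    (v : Fin N.K × (CZ (ZX D) V D.r ⊕ A.Y)) : ∃ w, w ≠ v ∧ (GE D A N).Adj (k, .inr s) w := by
  refine lfg_two (GE D A N) (a := (k, .inr a)) (b := (k, .inr b)) ?_ ((ge_rr D A N k k s a).2 ⟨rfl, ha⟩)
    ((ge_rr D A N k k s b).2 ⟨rfl, hb⟩) v
  intro h
  exact hab (Sum.inr_injective (Prod.ext_iff.1 h).2)

theorem lfg_le [Finite D.U] (k : Fin N.K) (g : Fin 4) (p : Fin (A.M + 1))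
    (h : ∃ v, (GE D A N).Adj (k, .inr (.inr (g, .inl p))) v) : p.1 ≤ A.m g := by
  obtain ⟨⟨l, t⟩, h⟩ := h
  have hm := A.m1 g
  rcases t with t | t
  · obtain ⟨i, -, h2⟩ := (ge_rl D A N k l _ t).1 h
    have h3 : p.1 = 0 := h2.1
    omega
  · have h2 := ((ge_rr D A N k l _ t).1 h).2
    rw [be_path] at h2
    rcases h2 with ⟨-, h3, -⟩ | ⟨p', -, h3⟩ | ⟨i, c, -, -, h3⟩
    · omega
    · rcases h3 with ⟨h3, h4⟩ | ⟨h3, h4⟩ <;> omega
    · rcases h3 with ⟨-, h4⟩ | ⟨-, h4⟩ <;> omega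

theorem lf_gad [Finite D.U] (hd : 1 ≤ A.d) (k : Fin N.K)
    (y : Fin 4 × (Fin (A.M + 1) ⊕ (Fin (A.d + 1) × Fin A.l)))
    (h : ∃ v, (GE D A N).Adj (k, .inr (.inr y)) v) (v : Fin N.K × (CZ (ZX D) V D.r ⊕ A.Y)) :
    ∃ w, w ≠ v ∧ (GE D A N).Adj (k, .inr (.inr y)) w := by
  obtain ⟨g, y⟩ := y
  have hl := A.hl
  have hm := A.m1 g
  have hM := A.mM g
  rcases y with p | ⟨i, c⟩
  · have hp := lfg_le D A N k g p h
    have hpM := p.2
    rcases Nat.eq_zero_or_pos p.1 with h0 | h0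
    · refine lfg_red D A N k _ (.inr (g, .inl ⟨1, by omega⟩)) (.inr (g, .inr (0, ⟨0, by omega⟩))) (by simp) ?_ ?_ v
      · rw [be_path]
        exact Or.inr (Or.inl ⟨_, rfl, Or.inl ⟨by simp [h0], hm⟩⟩)
      · rw [be_path]
        exact Or.inr (Or.inr ⟨_, _, rfl, rfl, Or.inl ⟨rfl, h0⟩⟩)
    · rcases lt_or_eq_of_le hp with h1 | h1
      · refine lfg_red D A N k _ (.inr (g, .inl ⟨p.1 - 1, by omega⟩)) (.inr (g, .inl ⟨p.1 + 1, by omega⟩)) ?_ ?_ ?_ v
        · simp only [ne_eq, Sum.inr.injEq, Prod.mk.injEq, true_and, Sum.inl.injEq, Fin.mk.injEq]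
          omega
        · rw [be_path]
          exact Or.inr (Or.inl ⟨_, rfl, Or.inr ⟨by simp only []; omega, hp⟩⟩)
        · rw [be_path]
          exact Or.inr (Or.inl ⟨_, rfl, Or.inl ⟨rfl, h1⟩⟩)
      · refine lfg_red D A N k _ (.inr (g, .inl ⟨p.1 - 1, by omega⟩)) (.inr (g, .inr (⟨1, by omega⟩, ⟨0, by omega⟩)))
          (by simp) ?_ ?_ v
        · rw [be_path]
          exact Or.inr (Or.inl ⟨_, rfl, Or.inr ⟨by simp only []; omega, hp⟩⟩)
        · rw [be_path]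
          refine Or.inr (Or.inr ⟨_, _, rfl, rfl, Or.inr ⟨?_, h1⟩⟩)
          intro h2
          have h3 := congrArg Fin.val h2
          simp at h3
  · have hc := c.2
    have e1 : ∃ c' : Fin A.l, c'.1 = c.1 + 1 ∨ (c.1 + 1 = A.l ∧ c'.1 = 0) := by
      rcases Nat.lt_or_ge (c.1 + 1) A.l with h1 | h1
      · exact ⟨⟨c.1 + 1, h1⟩, Or.inl rfl⟩
      · exact ⟨⟨0, by omega⟩, Or.inr ⟨by omega, rfl⟩⟩
    have e2 : ∃ c' : Fin A.l, c.1 = c'.1 + 1 ∨ (c'.1 + 1 = A.l ∧ c.1 = 0) := by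
      rcases Nat.eq_zero_or_pos c.1 with h1 | h1
      · exact ⟨⟨A.l - 1, by omega⟩, Or.inr ⟨by simp only []; omega, h1⟩⟩
      · exact ⟨⟨c.1 - 1, by omega⟩, Or.inl (by simp only []; omega)⟩
    obtain ⟨c1, h1⟩ := e1
    obtain ⟨c2, h2⟩ := e2
    refine lfg_red D A N k _ (.inr (g, .inr (i, c1))) (.inr (g, .inr (i, c2))) ?_ ?_ ?_ v
    · simp only [ne_eq, Sum.inr.injEq, Prod.mk.injEq, true_and]
      intro h3
      have h4 := congrArg Fin.val h3
      have := c1.2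
      have := c2.2
      omega
    · rw [be_cyc]
      refine Or.inr ⟨c1, rfl, ?_⟩
      rcases h1 with h1 | h1
      · exact Or.inl h1
      · exact Or.inr (Or.inl h1)
    · rw [be_cyc]
      refine Or.inr ⟨c2, rfl, ?_⟩
      rcases h2 with h2 | h2
      · exact Or.inr (Or.inr (Or.inl h2))
      · exact Or.inr (Or.inr (Or.inr h2))

end Pool.Agent.LHE
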