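import Pool.Agent.LHE.Defs
import Pool.Agent.LHE.Bp
import Pool.Agent.LHE.GeA
import Pool.Agent.LHD.FlX
import Pool.Agent.LHA.CellL

/-!
# The roots have two neighbours

`ro_nb`: by `flex_D` there is `p` with `p '' (gD D nx).neighborSet (k, roD D i) = N(K.a i) \ K.F i` (here `D.a (.inl i)` is `D.a4 i = K.a i`; see `hDa`, `hDF`), not empty since `K.F i ⊂ N(K.a i)` (`K.F_ssub`). `ro_at`: a free vertex attached to the root `i` of the cell `k`: `i = 0`: `inl (fv 0 0)` of the cell `k` (first alternative of `atZ`). `i = q.succ`: if there is `k' < N.K` with `N.lk q k' k` then `inl (en q)` of the cell `k'`; otherwise `c0 i` of the cell `k` (`atE`: `p = 0`, `i ≠ 0`, `k = l`, no arm: from `q'.succ = i = q.succ` follows `q' = q`). `lf_root`: the neighbour in `gD` (`ge_ll`) is `(_, inl _)`, the attached vertex is `(_, inr _)` (`ge_rl`, symmetric): they are different, so one of them is `≠ v`.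
-/

namespace Pool.Agent.LHE

open Pool.Agent.LIH Pool.Agent.LHA Pool.Agent.LHD
open Pool.Agent.LHC (Rg DeepN De Br CZ Ctr nxt nxG glueS sAdj LN LC LO)

variable {V : Type} [Finite V] {H : SimpleGraph V} (D : DX H) {K : Kit H} (A : GA K) (N : Ntw)

theorem ro_nb (hDa : D.a4 = K.a) (hDF : D.F4 = K.F) {κ : Type} (nx : Equiv.Perm (κ × D.U)) (k : κ)
    (i : Fin 4) : ∃ w, (gD D nx).Adj (k, roD D i) w := by
  obtain ⟨p, -, hp⟩ := flex_D D nx
  have h1 := (hp k i).2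
  rw [hDa, hDF] at h1
  obtain ⟨b, hb1, hb2⟩ := Set.exists_of_ssubset (K.F_ssub i)
  have h2 : b ∈ p '' (gD D nx).neighborSet (k, roD D i) := by
    rw [h1]
    exact ⟨hb1, hb2⟩
  obtain ⟨w, hw, -⟩ := h2
  exact ⟨w, hw⟩

theorem ro_at (k : Fin N.K) (i : Fin 4) : ∃ (k' : Fin N.K) (s : A.Y), A.atEN N k' s k i := by
  rcases Fin.eq_zero_or_eq_succ i with rfl | ⟨q, rfl⟩
  · exact ⟨k, .inl (K.fv 0 0), Or.inl ⟨rfl, rfl, Or.inl rfl⟩⟩
  · by_cases h : ∃ k' < N.K, N.lk q k' k.1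
    · obtain ⟨k', hk', hl⟩ := h
      exact ⟨⟨k', hk'⟩, .inl (K.en q), Or.inr ⟨q, rfl, rfl, hl⟩⟩
    · refine ⟨k, A.c0 q.succ, ?_⟩
      refine ⟨rfl, Fin.succ_ne_zero q, rfl, rfl, ?_⟩
      rintro ⟨q', hq', h'⟩
      rw [Fin.succ_inj] at hq'
      subst hq'
      exact h h'

theorem lf_root [Finite D.U] (hDa : D.a4 = K.a) (hDF : D.F4 = K.F) (k : Fin N.K) (i : Fin 4)
    (v : Fin N.K × (CZ (ZX D) V D.r ⊕ A.Y)) :
    ∃ w, w ≠ v ∧ (GE D A N).Adj (k, .inl (roD D i)) w := by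
  obtain ⟨⟨l, t⟩, hw⟩ := ro_nb D hDa hDF (nxG N.K D.U) k i
  obtain ⟨k', s, hs⟩ := ro_at A N k i
  have h1 : (GE D A N).Adj (k, .inl (roD D i)) (l, .inl t) := (ge_ll D A N _ _ _ _).2 hw
  have h2 : (GE D A N).Adj (k, .inl (roD D i)) (k', .inr s) :=
    ((ge_rl D A N _ _ _ _).2 ⟨i, rfl, hs⟩).symm
  by_cases hv : v = (l, .inl t)
  · refine ⟨(k', .inr s), ?_, h2⟩
    rw [hv]
    intro h
    have := congrArg Prod.snd h
    cases this
  · exact ⟨_, fun h => hv h.symm, h1⟩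

end Pool.Agent.LHE
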