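import Pool.Agent.LHE.Defs
import Pool.Agent.LHD.CvB
import Pool.Agent.LHD.CtN
import Pool.Agent.LHD.CtO
import Pool.Agent.LHD.NdB
import Pool.Agent.LHD.NdC
import Pool.Agent.LHD.WDe
import Pool.Agent.LHD.WOk
import Pool.Agent.LHD.WLn

/-!
# The vertices of the world have two neighbours

`P = cvD D nx = (coreD D nx).clt (lnD D) D.r` is `Ok` (`clt_ok`, `coreD_ok`, `lnD_ok`), `gD` is `P.G H`; by `Cv.adj_p` (or `Cv.adj_iff`) the vertex `w` is a neighbour of `u` iff `P.nb u (P.p w) = some w` and `H.Adj (P.p u) (P.p w)`; and if `H.Adj (P.p u) y`, `P.nb u y = some w` then `P.p w = y` (`Ok`) and `w` is a neighbour of `u`. It is enough that there are two different ports `y1, y2 ∈ N(P.p u)` with `P.nb u yi ≠ none`: the neighbours `w1, w2` over them are different (`P.p wi = yi`), so one of them is `≠ v`.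
`u = (k, inl z)`: if `lnD D (k, z) y` then `P.nb u y = some (k, inr (z, y, last, y))` (`clt_nb_ln`), otherwise it is `((coreD D nx).nb (k, z) y).map _` (`clt_nb_not`), and `wfull` says that this is not `none`; so all (at least three) ports have neighbours. `wfull`: nodes: by `nd_cases` (`LHD/NdC.lean`, compare `dpD_full` in `LHD/WDe.lean`) the port is the link port (then `ln`), or `nb ≠ none` (`nb_par`, `nb_chd`), or it is unused and a free slot: `nbX = none`; then it has a line unless `l = []` and `y ∈ F j`; for `j = .inr _` the set `F j` is empty, for `j = .inl i` and `l = []` the vertex is the root `(k, roD i)`, excluded by `hz`. Stars: all ports have lines. `ds`: `nb_ds_in` (as in `dpD_full`).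
`u = (k, inr (z, y, i, x))`: by `clt_cases` (or from the definition of `clt`) `P.nb u y' = none` only for one port `y'` (`lnD (k, z) y`, `x = p z`, `y' = y`, `i = 0` and no neighbour over `y`); so at least two of the at least three ports have neighbours.
-/

namespace Pool.Agent.LHE

open Pool.Agent.LIH Pool.Agent.LHA Pool.Agent.LHD
open Pool.Agent.LHC (Rg DeepN De Br CZ Ctr nxt nxG glueS sAdj LN LC LO)

variable {V : Type} [Finite V] {H : SimpleGraph V} (D : DX H) {κ : Type} (nx : Equiv.Perm (κ × D.U))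

theorem lfW_two {W : Type} {P : Cv V W} (hP : P.Ok H) {u : W} {y1 y2 : V}
    (h1 : H.Adj (P.p u) y1) (h2 : H.Adj (P.p u) y2) (hne : y1 ≠ y2)
    (n1 : P.nb u y1 ≠ none) (n2 : P.nb u y2 ≠ none) (v : W) :
    ∃ w, w ≠ v ∧ (P.G H).Adj u w := by
  obtain ⟨w1, e1⟩ := Option.ne_none_iff_exists'.1 n1
  obtain ⟨w2, e2⟩ := Option.ne_none_iff_exists'.1 n2
  have a1 : (P.G H).Adj u w1 := (Cv.adj_iff hP u w1).2 ⟨y1, h1, e1⟩
  have a2 : (P.G H).Adj u w2 := (Cv.adj_iff hP u w2).2 ⟨y2, h2, e2⟩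
  have p1 := (hP u y1 w1 h1 e1).1
  have p2 := (hP u y2 w2 h2 e2).1
  have hw : w1 ≠ w2 := by
    rintro rfl
    exact hne (p1.symm.trans p2)
  by_cases hv : w1 = v
  · exact ⟨w2, fun h => hw (hv.trans h.symm), a2⟩
  · exact ⟨w1, hv, a1⟩

theorem lfW_ports {W : Type} [Finite W] {S : Set W} (h : 3 ≤ S.ncard) (y : W) :
    ∃ y1 y2, y1 ∈ S ∧ y2 ∈ S ∧ y1 ≠ y2 ∧ y1 ≠ y ∧ y2 ≠ y := by
  have h1 : 1 < (S \ {y}).ncard := by
    have h2 := Set.ncard_le_ncard_diff_add_ncard S {y} (Set.toFinite _)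
    rw [Set.ncard_singleton] at h2
    omega
  obtain ⟨a, b, ha, hb, hab⟩ := (Set.one_lt_ncard_iff (Set.toFinite _)).1 h1
  exact ⟨a, b, ha.1, hb.1, hab, ha.2, hb.2⟩

theorem wfull (k : κ) (z : ZX D) (hz : ∀ i : Fin 4, z ≠ .nd (.inl i) ⟨[], trivial⟩) (y : V)
    (hy : H.Adj (pX D z) y) (hn : (coreD D nx).nb (k, z) y = none) : lnD D ((k, z) : κ × ZX D) y := by
  rcases z with ⟨j, l⟩ | ⟨z, u, b⟩ | ⟨z, u, σ, x⟩
  · change H.Adj (D.hd j l.1) y at hy
    refine ⟨hy, ?_⟩
    rcases nd_cases D nx k hy with h1 | ⟨h1, rfl, h3⟩ | ⟨h1, h2⟩ | ⟨h1, h2, h3, h4⟩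
    · exact Or.inl h1
    · rw [nb_par D nx k h1] at hn
      exact absurd hn (by simp)
    · rw [nb_chd D nx k h1] at hn
      exact absurd hn (by simp)
    · refine Or.inr (Or.inl ⟨h2, ?_⟩)
      rintro ⟨h5, h6⟩
      rcases j with i | x
      · apply hz i
        have hl : l = ⟨[], trivial⟩ := Subtype.ext h5
        rw [hl]
      · exact h6
  · exact hy
  · refine ⟨hy, ?_⟩
    by_contra hc
    rw [nb_ds_in D nx k z u σ hc] at hn
    exact absurd hn (by simp)

theorem lf_world (h3 : ∀ v, 3 ≤ (H.neighborSet v).ncard) (k : κ) (s : CZ (ZX D) V D.r)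
    (hs : ∀ i, s ≠ roD D i) (v : κ × CZ (ZX D) V D.r) :
    ∃ w, w ≠ v ∧ (gD D nx).Adj (k, s) w := by
  have hOk : (coreD D nx).Ok H := coreD_ok D nx
  have hL : LnOk H (coreD D nx) (lnD D) := lnD_ok D nx
  have hC : (cvD D nx).Ok H := clt_ok D.r hOk hL
  rcases s with z | ⟨z, y, i, x⟩
  · have hz : ∀ i : Fin 4, z ≠ .nd (.inl i) ⟨[], trivial⟩ := by
      intro i h
      apply hs i
      rw [h]
      rfl
    obtain ⟨y1, y2, h1, h2, hne, -, -⟩ := lfW_ports (h3 (pX D z)) (pX D z)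
    have key : ∀ y, H.Adj (pX D z) y → (cvD D nx).nb (k, .inl z) y ≠ none := by
      intro y hy hn
      by_cases hl : lnD D ((k, z) : κ × ZX D) y
      · have h := clt_nb_ln (P := coreD D nx) (r := D.r) hl
        rw [cvD, h] at hn
        exact absurd hn (by simp)
      · have h := clt_nb_not (P := coreD D nx) (r := D.r) hl
        rw [cvD, h, Option.map_eq_none_iff] at hn
        exact hl (wfull D nx k z hz y hy hn)
    exact lfW_two (P := cvD D nx) hC (u := (k, .inl z)) h1 h2 hne (key y1 h1) (key y2 h2) v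
  · obtain ⟨y1, y2, h1, h2, hne, e1, e2⟩ := lfW_ports (h3 x) y
    have key : ∀ y', y' ≠ y → (cvD D nx).nb (k, .inr (z, y, i, x)) y' ≠ none := by
      intro y' hy' hn
      rcases clt_cases (P := coreD D nx) (ln := lnD D) (r := D.r) (k := k) (z := z) (y := y)
        (fun h => (hL.adj _ _ h).ne) i x y' with
        ⟨_, _, h, _⟩ | ⟨_, _, h, _⟩ | ⟨_, _, _, _, h⟩ | ⟨_, _, _, _, h⟩ | ⟨_, h⟩
      · exact hy' h
      · exact hy' h
      · rw [cvD, h] at hn
        exact absurd hn (by simp)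
      · rw [cvD, h] at hn
        exact absurd hn (by simp)
      · rw [cvD, h] at hn
        exact absurd hn (by simp)
    exact lfW_two (P := cvD D nx) hC (u := (k, .inr (z, y, i, x))) h1 h2 hne
      (key y1 e1) (key y2 e2) v

end Pool.Agent.LHE
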