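import Pool.Agent.LHE.Defs
import Pool.Agent.LHE.GeA
import Pool.Agent.LHE.LfW
import Pool.Agent.LHE.LfR
import Pool.Agent.LHE.LfA
import Pool.Agent.LHE.LfG

/-!
# The graph has no leaves

Let `u` be adjacent to `v`. `u = (k, inl s)`: if `s = roD D i` then `lf_root`; otherwise `lf_world` at `(k, s)` with `v' = v` if `v = (l, inl t)` (and any vertex, for example `(k, s)`, if `v = (l, inr t)`), `ge_ll`. `u = (k, inr (inl y))`: `lf_arm`. `u = (k, inr (inr y))`: `lf_gad`; `1 ≤ A.d` since `A.hd` and `h3` give `3 ≤ A.d + 1`.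
-/

namespace Pool.Agent.LHE

open Pool.Agent.LIH Pool.Agent.LHA Pool.Agent.LHD
open Pool.Agent.LHC (Rg DeepN De Br CZ Ctr nxt nxG glueS sAdj LN LC LO)

variable {V : Type} [Finite V] {H : SimpleGraph V} (D : DX H) {K : Kit H} (A : GA K) (N : Ntw)

theorem ge_lfl [Finite D.U] (h3 : ∀ v, 3 ≤ (H.neighborSet v).ncard) (hDa : D.a4 = K.a)
    (hDF : D.F4 = K.F) : Lfl (GE D A N) := by
  classical
  have hd : 1 ≤ A.d := by
    have h1 := A.hd
    have h2 := h3 A.x0
    omega
  rintro ⟨k, u⟩ ⟨l, v⟩ huv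
  rcases u with s | u
  · by_cases hs : ∃ i, s = roD D i
    · obtain ⟨i, rfl⟩ := hs
      exact lf_root D A N hDa hDF k i (l, v)
    · have hs' : ∀ i, s ≠ roD D i := fun i h => hs ⟨i, h⟩
      rcases v with t | t
      · obtain ⟨⟨l', t'⟩, hw, hadj⟩ := lf_world D (nxG N.K D.U) h3 k s hs' (l, t)
        refine ⟨(l', .inl t'), ?_, (ge_ll D A N k l' s t').2 hadj⟩
        intro h
        apply hw
        simpa using h
      · obtain ⟨⟨l', t'⟩, hw, hadj⟩ := lf_world D (nxG N.K D.U) h3 k s hs' (k, s)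
        refine ⟨(l', .inl t'), ?_, (ge_ll D A N k l' s t').2 hadj⟩
        intro h
        simp at h
  · rcases u with y | y
    · exact lf_arm D A N k y ⟨_, huv⟩ (l, v)
    · exact lf_gad D A N hd k y ⟨_, huv⟩ (l, v)

end Pool.Agent.LHE
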