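import Pool.Agent.LHE.Defs
import Pool.Agent.LHE.Bp
import Pool.Agent.LHE.GeA
import Pool.Agent.LHA.CellL
import Pool.Agent.LHA.CellS

/-!
# Vertices of large degree

`deg_q`: the neighbours of `(k, inr (q g))` (`q g` is the vertex `m g ≥ 1` of the path): the vertex `m g - 1` of the path and the vertices `0` of the cycles `i ≠ 0`, that is `i = Fin.succ i'`, `i' : Fin d` (`be_path`, `ge_rr`). This gives an injective map from `Fin (d + 1)` to the neighbours (`Fin.cases`); all neighbours are in the finite set of the `(k', inr t)` (an attached path vertex has `p = 0`, but `m g ≥ 1`; or use that the vertex type is finite: `Finite D.U`, `LHD/FinX.lean`). Use `Set.ncard_le_ncard_of_injOn` or `Set.ncard_image_of_injective`, `Set.ncard_le_ncard`.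
`rc_gad`: a path vertex `p ≤ m g` is joined to `q g` by the path (induction on `m g - p`); a path vertex with `p > m g` has no neighbour (`be_path`, and it is not attached since `p ≠ 0`). A cycle vertex `(i, c)` is joined to `(i, 0)` (induction on `c`), which is adjacent to the path vertex `0` (`i = 0`) or `m g` (`i ≠ 0`).
`rc_arm`: as in `LfA` every vertex with a neighbour is `fv q p` with `p < L q` (`CellL_eta`, `B_cases`, `be_arm`, `ge_rl`); it is joined to `fv q 0` (`K.B_arm`, induction on `p`); `fv 1 0 ∼ fv 0 0` (`K.B_01`), `fv 0 0 ∼ root 0 ∼ fv 2 0` (`ge_rl`, first alternative of `atZ`), `fv 2 0` is joined to `fv 2 (j - 1)`, adjacent to `c0 0` (`be_arm`), which is joined to `q 0`.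
-/

namespace Pool.Agent.LHE

open Pool.Agent.LIH Pool.Agent.LHA Pool.Agent.LHD
open Pool.Agent.LHC (Rg DeepN De Br CZ Ctr nxt nxG glueS sAdj LN LC LO)

variable {V : Type} [Finite V] {H : SimpleGraph V} (D : DX H) {K : Kit H} (A : GA K) (N : Ntw)

theorem RcQ_step [Finite D.U] (k : Fin N.K) {s t : A.Y} (h : A.BE.Adj s t) :
    (GE D A N).Reachable (k, .inr s) (k, .inr t) :=
  ((ge_rr D A N k k s t).2 ⟨rfl, h⟩).reachable

theorem RcQ_path [Finite D.U] (k : Fin N.K) (g : Fin 4) (n : ℕ) : ∀ p : Fin (A.M + 1),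
    p.1 + n = A.m g → (GE D A N).Reachable (k, .inr (.inr (g, .inl p))) (k, .inr (A.q g)) := by
  induction n with
  | zero =>
    intro p hp
    have e : p = ⟨A.m g, Nat.lt_succ_of_le (A.mM g)⟩ := Fin.ext (by simpa using hp)
    subst e
    exact SimpleGraph.Reachable.refl _
  | succ n ih =>
    intro p hp
    have hM := A.mM g
    have h1 : p.1 + 1 < A.M + 1 := by omega
    refine (RcQ_step D A N k ((be_path A g p (.inr (g, .inl ⟨p.1 + 1, h1⟩))).2
      (Or.inr (Or.inl ⟨⟨p.1 + 1, h1⟩, rfl, Or.inl ⟨rfl, ?_⟩⟩)))).trans (ih ⟨p.1 + 1, h1⟩ ?_)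
    · change p.1 + 1 ≤ A.m g
      omega
    · change p.1 + 1 + n = A.m g
      omega

theorem RcQ_path_le [Finite D.U] (k : Fin N.K) (g : Fin 4) (p : Fin (A.M + 1)) (hp : p.1 ≤ A.m g) :
    (GE D A N).Reachable (k, .inr (.inr (g, .inl p))) (k, .inr (A.q g)) :=
  RcQ_path D A N k g (A.m g - p.1) p (by omega)

theorem RcQ_cyc [Finite D.U] (k : Fin N.K) (g : Fin 4) (i : Fin (A.d + 1)) (n : ℕ) :
    ∀ c : Fin A.l, c.1 = n →
      (GE D A N).Reachable (k, .inr (.inr (g, .inr (i, c)))) (k, .inr (A.q g)) := by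
  induction n with
  | zero =>
    intro c hc
    by_cases hi : i = 0
    · have h1 : A.BE.Adj (.inr (g, .inr (i, c))) (.inr (g, .inl ⟨0, Nat.succ_pos _⟩)) :=
        (be_cyc A g i c _).2 (Or.inl ⟨⟨0, Nat.succ_pos _⟩, rfl, hc, Or.inl ⟨hi, rfl⟩⟩)
      exact (RcQ_step D A N k h1).trans (RcQ_path_le D A N k g _ (Nat.zero_le _))
    · have h1 : A.BE.Adj (.inr (g, .inr (i, c))) (A.q g) :=
        (be_cyc A g i c _).2 (Or.inl ⟨⟨A.m g, Nat.lt_succ_of_le (A.mM g)⟩, rfl, hc, Or.inr ⟨hi, rfl⟩⟩)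
      exact RcQ_step D A N k h1
  | succ n ih =>
    intro c hc
    have hlt : n < A.l := by
      have := c.2
      omega
    have h1 : A.BE.Adj (.inr (g, .inr (i, c))) (.inr (g, .inr (i, ⟨n, hlt⟩))) :=
      (be_cyc A g i c _).2 (Or.inr ⟨⟨n, hlt⟩, rfl, Or.inr (Or.inr (Or.inl hc))⟩)
    exact (RcQ_step D A N k h1).trans (ih ⟨n, hlt⟩ rfl)

theorem deg_q [Finite D.U] (k : Fin N.K) (g : Fin 4) :
    A.d + 1 ≤ ((GE D A N).neighborSet (k, .inr (A.q g))).ncard := by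
  classical
  have hl : 0 < A.l := lt_of_lt_of_le (by norm_num) A.hl
  have hm := A.m1 g
  have hM := A.mM g
  have hp : A.m g - 1 < A.M + 1 := by omega
  let φ : Fin (A.d + 1) → Fin N.K × (CZ (ZX D) V D.r ⊕ A.Y) := fun i =>
    Fin.cases (k, .inr (.inr (g, .inl ⟨A.m g - 1, hp⟩)))
      (fun i' : Fin A.d => (k, .inr (.inr (g, .inr (i'.succ, ⟨0, hl⟩))))) i
  have hφ0 : φ 0 = (k, .inr (.inr (g, .inl ⟨A.m g - 1, hp⟩))) := rfl
  have hφs : ∀ i' : Fin A.d, φ i'.succ = (k, .inr (.inr (g, .inr (i'.succ, ⟨0, hl⟩)))) :=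
    fun i' => rfl
  have hinj : Function.Injective φ := by
    intro a b hab
    rcases Fin.eq_zero_or_eq_succ a with rfl | ⟨a', rfl⟩ <;>
      rcases Fin.eq_zero_or_eq_succ b with rfl | ⟨b', rfl⟩
    · rfl
    · rw [hφ0, hφs] at hab
      simp at hab
    · rw [hφ0, hφs] at hab
      simp at hab
    · rw [hφs, hφs] at hab
      simp only [Prod.mk.injEq, Sum.inr.injEq, true_and, and_true] at hab
      exact hab
  have hsub : Set.range φ ⊆ (GE D A N).neighborSet (k, .inr (A.q g)) := by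
    rintro _ ⟨a, rfl⟩
    rw [SimpleGraph.mem_neighborSet]
    rcases Fin.eq_zero_or_eq_succ a with rfl | ⟨a', rfl⟩
    · rw [hφ0]
      refine (ge_rr D A N _ _ _ _).2 ⟨rfl, (be_path A g _ _).2
        (Or.inr (Or.inl ⟨⟨A.m g - 1, hp⟩, rfl, Or.inr ⟨?_, le_refl _⟩⟩))⟩
      change A.m g = A.m g - 1 + 1
      omega
    · rw [hφs]
      exact (ge_rr D A N _ _ _ _).2 ⟨rfl, (be_path A g _ _).2
        (Or.inr (Or.inr ⟨a'.succ, ⟨0, hl⟩, rfl, rfl, Or.inr ⟨Fin.succ_ne_zero _, rfl⟩⟩))⟩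
  have hfin : ((GE D A N).neighborSet (k, .inr (A.q g))).Finite := by
    refine (Set.finite_range (fun t : Fin N.K × A.Y =>
      ((t.1, .inr t.2) : Fin N.K × (CZ (ZX D) V D.r ⊕ A.Y)))).subset ?_
    rintro ⟨k', t | t⟩ ht
    · exfalso
      rw [SimpleGraph.mem_neighborSet] at ht
      obtain ⟨i, -, h1⟩ := (ge_rl D A N _ _ _ _).1 ht
      have h2 : A.m g = 0 := h1.1
      omega
    · exact ⟨(k', t), rfl⟩
  have h3 : (Set.range φ).ncard = A.d + 1 := by
    rw [← Set.image_univ, Set.ncard_image_of_injective _ hinj, Set.ncard_univ, Nat.card_eq_fintype_card,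
      Fintype.card_fin]
  rw [← h3]
  exact Set.ncard_le_ncard hsub hfin

theorem rc_gad [Finite D.U] (k : Fin N.K) (g : Fin 4) (y : Fin (A.M + 1) ⊕ (Fin (A.d + 1) × Fin A.l))
    (h : ∃ v, (GE D A N).Adj (k, .inr (.inr (g, y))) v) :
    (GE D A N).Reachable (k, .inr (.inr (g, y))) (k, .inr (A.q g)) := by
  rcases y with p | ⟨i, c⟩
  · apply RcQ_path_le
    obtain ⟨⟨k', t | t⟩, hv⟩ := h
    · obtain ⟨i, -, h1⟩ := (ge_rl D A N _ _ _ _).1 hv
      have h2 : p.1 = 0 := h1.1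
      omega
    · have h1 := ((ge_rr D A N _ _ _ _).1 hv).2
      rcases (be_path A g p t).1 h1 with ⟨-, h2, -⟩ | ⟨p', -, ⟨h2, h3⟩ | ⟨h2, h3⟩⟩ |
        ⟨i, c, -, -, ⟨-, h2⟩ | ⟨-, h2⟩⟩
      · omega
      · omega
      · exact h3
      · omega
      · omega
  · exact RcQ_cyc D A N k g i c.1 c rfl

theorem RcQ_arm0 [Finite D.U] (k : Fin N.K) (q : Fin 3) (p : ℕ) (hp : p < K.L q) :
    (GE D A N).Reachable (k, .inr (.inl (K.fv q p))) (k, .inr (.inl (K.fv q 0))) := by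
  induction p with
  | zero => exact SimpleGraph.Reachable.refl _
  | succ p ih =>
    have h1 : A.BE.Adj (.inl (K.fv q (p + 1))) (.inl (K.fv q p)) :=
      (be_arm A _ _).2 (Or.inl ⟨_, rfl, (K.B_arm q hp).symm⟩)
    exact (RcQ_step D A N k h1).trans (ih (by omega))

theorem RcQ_two [Finite D.U] (k : Fin N.K) :
    (GE D A N).Reachable (k, .inr (.inl (K.fv 2 0))) (k, .inr (A.q 0)) := by
  have hj := K.j_pos
  have hL : K.L 2 = K.j := rfl
  refine (RcQ_arm0 D A N k 2 (K.j - 1) (by omega)).symm.trans ?_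
  have h1 : A.BE.Adj (.inl (K.fv 2 (K.j - 1))) (A.c0 0) := (be_arm A _ _).2 (Or.inr ⟨rfl, rfl⟩)
  exact (RcQ_step D A N k h1).trans (RcQ_path_le D A N k 0 _ (Nat.zero_le _))

theorem RcQ_zero [Finite D.U] (k : Fin N.K) :
    (GE D A N).Reachable (k, .inr (.inl (K.fv 0 0))) (k, .inr (A.q 0)) := by
  have h0 : A.atEN N k (.inl (K.fv 0 0)) k 0 := Or.inl ⟨rfl, rfl, Or.inl rfl⟩
  have h2 : A.atEN N k (.inl (K.fv 2 0)) k 0 := Or.inl ⟨rfl, rfl, Or.inr rfl⟩
  have h3 : (GE D A N).Adj (k, .inr (.inl (K.fv 0 0))) (k, .inl (roD D 0)) :=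
    (ge_rl D A N _ _ _ _).2 ⟨0, rfl, h0⟩
  have h4 : (GE D A N).Adj (k, .inr (.inl (K.fv 2 0))) (k, .inl (roD D 0)) :=
    (ge_rl D A N _ _ _ _).2 ⟨0, rfl, h2⟩
  exact (h3.reachable.trans h4.symm.reachable).trans (RcQ_two D A N k)

theorem RcQ_fv [Finite D.U] (k : Fin N.K) (q : Fin 3) (p : ℕ) (hp : p < K.L q) :
    (GE D A N).Reachable (k, .inr (.inl (K.fv q p))) (k, .inr (A.q 0)) := by
  refine (RcQ_arm0 D A N k q p hp).trans ?_
  fin_cases q
  · exact RcQ_zero D A N k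
  · have hm : 0 < K.m2 := lt_of_le_of_lt (Nat.zero_le _) hp
    have h1 : A.BE.Adj (.inl (K.fv 1 0)) (.inl (K.fv 0 0)) :=
      (be_arm A _ _).2 (Or.inl ⟨_, rfl, (K.B_01 hm).symm⟩)
    exact (RcQ_step D A N k h1).trans (RcQ_zero D A N k)
  · exact RcQ_two D A N k

theorem rc_arm [Finite D.U] (k : Fin N.K) (y : Fin 3 × Fin K.len)
    (h : ∃ v, (GE D A N).Adj (k, .inr (.inl y)) v) :
    (GE D A N).Reachable (k, .inr (.inl y)) (k, .inr (A.q 0)) := by
  have hj := K.j_pos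
  have key : ∃ q p, p < K.L q ∧ y = K.fv q p := by
    obtain ⟨⟨k', t | t⟩, hv⟩ := h
    · obtain ⟨i, -, h1⟩ := (ge_rl D A N _ _ _ _).1 hv
      have h2 : (i = 0 ∧ k.1 = k'.1 ∧ (y = K.fv 0 0 ∨ y = K.fv 2 0)) ∨
        ∃ q : Fin 3, i = q.succ ∧ y = K.en q ∧ N.lk q k.1 k'.1 := h1
      rcases h2 with ⟨-, -, h2 | h2⟩ | ⟨q, -, h2, -⟩
      · exact ⟨0, 0, Nat.succ_pos _, h2⟩
      · exact ⟨2, 0, hj, h2⟩
      · fin_cases q
        · exact ⟨0, K.m1, Nat.lt_succ_self _, h2⟩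
        · have h3 : y = if K.m2 = 0 then K.fv 0 0 else K.fv 1 (K.m2 - 1) := h2
          by_cases hm : K.m2 = 0
          · rw [if_pos hm] at h3
            exact ⟨0, 0, Nat.succ_pos _, h3⟩
          · rw [if_neg hm] at h3
            refine ⟨1, K.m2 - 1, ?_, h3⟩
            change K.m2 - 1 < K.m2
            omega
        · refine ⟨2, K.j - 1, ?_, h2⟩
          change K.j - 1 < K.j
          omega
    · have h1 := ((ge_rr D A N _ _ _ _).1 hv).2
      rcases (be_arm A y t).1 h1 with ⟨y', -, h2⟩ | ⟨h2, -⟩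
      · rcases K.B_cases h2 with ⟨i, p, hp, h3, -⟩ | ⟨i, p, hp, h3, -⟩ | ⟨hm, h3, -⟩ | ⟨hm, h3, -⟩
        · exact ⟨i, p, by omega, h3⟩
        · exact ⟨i, p + 1, hp, h3⟩
        · exact ⟨0, 0, Nat.succ_pos _, h3⟩
        · exact ⟨1, 0, hm, h3⟩
      · refine ⟨2, K.j - 1, ?_, h2⟩
        change K.j - 1 < K.j
        omega
  obtain ⟨q, p, hp, rfl⟩ := key
  exact RcQ_fv D A N k q p hp

end Pool.Agent.LHE
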