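import Pool.Agent.LHE.Defs
import Pool.Agent.LHE.CoA
import Pool.Agent.LHE.CoB
import Pool.Agent.LHE.GaX
import Pool.Agent.LHE.GcR
import Pool.Agent.LHE.LfT
import Pool.Agent.LHE.RcQ
import Pool.Agent.LHE.DfE
import Pool.Agent.LHD.FinD

/-!
# The theorem
-/

namespace Pool.Agent.LHE

open Pool.Agent.LIH Pool.Agent.LHA Pool.Agent.LHD
open Pool.Agent.LHC (Rg DeepN De Br CZ Ctr nxt nxG glueS sAdj LN LC LO)

theorem ge_iff {V : Type} [Finite V] {H : SimpleGraph V} {C : Set V} {x : V} (hT : Top H C x)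
    (D : DX (H.induce C)) {K : Kit (H.induce C)} (A : GA K) (N : Ntw) (hA : A.x0 = ⟨x, hT.mem⟩)
    (h3 : ∀ v : C, 3 ≤ ((H.induce C).neighborSet v).ncard) (hDa : D.a4 = K.a)
    (hDF : D.F4 = K.F) :
    (∃ f, LocInj (GE D A N) H f) ↔ ∃ f, LocInj (GE D A N) (H.induce C) f := by
  classical
  constructor
  · rintro ⟨f, hf⟩
    obtain ⟨p, hp, -⟩ := flex_D D (nxG N.K D.U)
    have hdeg : A.d + 1 = (H.neighborSet x ∩ C).ncard := by
      rw [← A.hd, hA, deg_induce]
    refine to_comp hT (ge_lfl D A N h3 hDa hDF) {u | ∃ s, u.2 = .inl s}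
      (fun u => match u with
        | (k, .inl s) => p (k, s)
        | (_, .inr _) => ⟨x, hT.mem⟩) ?_ ?_ ?_ hf
    · rintro ⟨k, s | s⟩ ⟨l, t | t⟩ ⟨s', hs⟩ ⟨t', ht⟩ h
      · rw [ge_ll] at h
        exact hp.1 _ _ h
      · simp at ht
      · simp at hs
      · simp at hs
    · rintro ⟨k, s | s⟩ ⟨l, t | t⟩ ⟨m, w | w⟩ ⟨s', hs⟩ ⟨t', ht⟩ ⟨w', hw⟩ h h' he
      · rw [ge_ll] at h h'
        have := GlX_inj hp h h' he
        rw [Prod.mk.injEq] at this
        rw [this.1, this.2]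
      all_goals first
        | simp at hs; done
        | simp at ht; done
        | simp at hw; done
    · rintro ⟨k, s | s⟩ hs h
      · exact absurd ⟨s, rfl⟩ hs
      · rcases s with y | ⟨g, y⟩
        · refine ⟨(k, .inr (A.q 0)), rc_arm D A N k y h, ?_⟩
          rw [← hdeg]
          exact deg_q D A N k 0
        · refine ⟨(k, .inr (A.q g)), rc_gad D A N k g y h, ?_⟩
          rw [← hdeg]
          exact deg_q D A N k g
  · rintro ⟨f, hf⟩
    exact ⟨_, loc_val hf⟩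

open NPC in
theorem reduces_E {V : Type} [Finite V] {H : SimpleGraph V} {C : Set V} {x : V} (hT : Top H C x)
    {L : Set (List Bool)} (hL : L ∈ NP) : Reduces L (LIHOM H) := by
  classical
  have hc : (H.induce C).Connected := hT.con
  have h3 : ∀ v : C, 3 ≤ ((H.induce C).neighborSet v).ncard := fun v => by
    rw [deg_induce]
    exact hT.deg v.1 v.2
  have h4 : ∃ v : C, 4 ≤ ((H.induce C).neighborSet v).ncard :=
    ⟨⟨x, hT.mem⟩, by rw [deg_induce]; exact hT.four⟩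
  obtain ⟨r, hr⟩ := Pool.Agent.LHC.exists_deepN hc
  obtain ⟨K⟩ := kit_exists h3 h4
  obtain ⟨pd⟩ := pd_exists h3
  obtain ⟨A, hA⟩ := ga_exists hc h3 K ⟨x, hT.mem⟩
  let D : DX (H.induce C) := { toPD := pd, a4 := K.a, F4 := K.F, R := r, r := r, two := hr.1 }
  obtain ⟨m, Nv, J, lit, hm, hNv, hlt, hsat, hdef⟩ := np_sat hL
  obtain ⟨r0, r1, r2, r3⟩ := K.R_vals
  obtain ⟨μ, hμ⟩ := trip_mode K.R r0 r1 r2 r3
  obtain ⟨PP, QQ, hPQ⟩ := gD_adj D
  refine Pool.Agent.LHC.reduces_cells (Z := CZ (ZX D) C D.r ⊕ A.Y)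
    ((Nv + 3 * (J * Polynomial.C m) + 1) * (6 * (2 * (J * Polynomial.C m) + 1)))
    (fun y n0 s t k l => adjX PP QQ (roD D) A.BE (A.atE (KK (Nv.eval n0) (J.eval n0 * m))
      (lk3 (Nv.eval n0) (J.eval n0 * m)
      (lit3 μ (Nv.eval n0) (J.eval n0 * m) m (lit y n0)))) (KK (Nv.eval n0) (J.eval n0 * m))
      k l s t) ?_ ?_
  · intro s t k B1 B2 hB1 hB2
    exact def_adjE A PP QQ (roD D) μ Nv J hm hdef s t hB1 hB2
  · intro z
    set n0 := z.length + 1 with hn0
    set N := ntw3 (Nv.eval n0) (J.eval n0 * m)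
      (lit3 μ (Nv.eval n0) (J.eval n0 * m) m (lit (prep z) n0)) with hN
    have hK : N.K = ((Nv + 3 * (J * Polynomial.C m) + 1) *
        (6 * (2 * (J * Polynomial.C m) + 1))).eval n0 := by
      simp only [hN, ntw3, KK, TT, Polynomial.eval_mul, Polynomial.eval_add,
        Polynomial.eval_one, Polynomial.eval_C, Polynomial.eval_ofNat]
    refine ⟨Fin N.K, finCongr hK, GE D A N, ?_, ?_⟩
    · intro k l s t
      exact glueX_num (hPQ N.K) (roD D) A.BE (A.atE N.K N.lk) k l s t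
    · have hlt3 := lit3_lt μ (Nv.eval n0) (J.eval n0) m hm (lit (prep z) n0) (hlt z)
      have hTs : TSol (Trip K.R) (2 * (J.eval n0 * m) + 1)
          (lit3 μ (Nv.eval n0) (J.eval n0 * m) m (lit (prep z) n0)) ↔
          SatOK (J.eval n0) m (lit (prep z) n0) := by
        rw [← tsol_iff_sat μ (Nv.eval n0) (J.eval n0) m hm (lit (prep z) n0) (hlt z)]
        unfold TSol
        simp only [hμ]
      have hfl : FlexX (H.induce C) (gD D (nxG N.K D.U)) (roD D) K.a K.F :=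
        flex_D D (nxG N.K D.U)
      have hfo : ForceX (H.induce C) (gD D (nxG N.K D.U)) (roD D) K.a K.F :=
        force_D hc h3 D (fun i => K.F_ssub i) (nxG N.K D.U) (Pool.Agent.LHC.nxG_ctr N.K D.U) hr
          (Nat.le_succ r)
      have hgl : (∃ f, LocInj (GE D A N) (H.induce C) f) ↔
          ∃ c : Fin N.K → A.Y → C, GoodCol (H.induce C) K.a K.F A.BE (A.atEN N) c :=
        glueX_iff (gD D (nxG N.K D.U)) (roD D) (roD_inj D) A.BE (A.atEN N) K.a K.F
          (fun i => K.F_sub i) hfl hfo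
      rw [hsat z, ge_iff hT D A N hA h3 rfl rfl, hgl, good_iff A h3 N, ← hTs]
      constructor
      · intro hs
        exact cell_complete K N (net_complete K.R _ _ _ hs)
      · rintro ⟨c, hcx⟩
        exact net_sound K.R _ _ _ hlt3 (cell_sound K N c hcx)

theorem npcE {n : ℕ} {H : SimpleGraph (Fin n)} {C : Set (Fin n)} {x : Fin n} (hT : Top H C x) :
    NPComplete (LIHOM H) :=
  ⟨lihom_mem_np H, fun _ hL => reduces_E hT hL⟩

end Pool.Agent.LHE
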